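import Mathlib
import Pool.Agent.Shared.PolyTime.Enc

/-!
Generalized character compatibility with state sets {1}, {2}, {0,2} on rooted trees.
-/

set_option autoImplicit false

namespace Pool.Agent.Lib.MP_16be6a_lc

open Pool.Agent.Shared.PolyTime

/-- The three allowed matrix entries. -/
inductive Entry : Type
  | one : Entry
  | two : Entry
  | zeroTwo : Entry

/-- The set of states an entry stands for: {1}, {2}, {0,2}. -/
def Entry.states : Entry → Set (Fin 3)
  | Entry.one => {1}
  | Entry.two => {2}
  | Entry.zeroTwo => {0, 2}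

/-- A number naming the entry. -/
def Entry.num : Entry → ℕ
  | Entry.one => 1
  | Entry.two => 2
  | Entry.zeroTwo => 0

/-- An instance: `n` species, `m` characters and the matrix. -/
structure Inst : Type where
  n : ℕ
  m : ℕ
  M : Fin n → Fin m → Entry

/-- The matrix, row by row, as a bit string. -/
def Inst.code (I : Inst) : List Bool :=
  encList (encList encNat) (List.ofFn fun s => List.ofFn fun c => (I.M s c).num)

/-- The arcs 0 → 1 and 1 → 2 of the transition digraph. -/
def Arc (a b : Fin 3) : Prop := (a = 0 ∧ b = 1) ∨ (a = 1 ∧ b = 2)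

/-- A solution exists: a finite rooted tree, given by its parent map, in which `label y` is the
label of the edge from the parent of `y` to `y` and `l x c` is the state of character `c` at
node `x`. -/
def Inst.HasSolution (I : Inst) : Prop :=
  ∃ (V : Type) (_ : Finite V) (root : V) (parent : V → V)
    (label : V → Set (Fin I.m × Fin 3)) (l : V → Fin I.m → Fin 3),
    parent root = root ∧ (∀ v, ∃ k : ℕ, parent^[k] v = root) ∧
    (∀ c, l root c = 0) ∧
    (∀ y, y ≠ root → ∀ c q, (c, q) ∈ label y → l y c = q) ∧
    (∀ y, y ≠ root → ∀ c, (∀ q, (c, q) ∉ label y) → l y c = l (parent y) c) ∧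
    (∀ y y', y ≠ root → y' ≠ root → ∀ p, p ∈ label y → p ∈ label y' → y = y') ∧
    (∀ y, y ≠ root → ∀ c q, (c, q) ∈ label y → Arc (l (parent y) c) q) ∧
    ∀ s, ∃ x, ∀ c, l x c ∈ (I.M s c).states

end Pool.Agent.Lib.MP_16be6a_lc
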