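import Pool.Agent.Lib.MP_16be6a_lc.Tree
import Pool.Agent.Shared.PolyTime.Typed

-- part Pool.Agent.Lib.MP_16be6a_lc.Alg
section

/-!
The algorithm on lists, and its correctness.
-/

set_option autoImplicit false

namespace Pool.Agent.Lib.MP_16be6a_lc

open Finset

abbrev LL := List (List ℕ)
abbrev ABt := List (List ℕ × List ℕ)
abbrev St := Bool × LL × List ℕ

def aL (AB : ABt) (c : ℕ) : List ℕ := (AB.getD c ([], [])).1
def bL (AB : ABt) (c : ℕ) : List ℕ := (AB.getD c ([], [])).2
def eL (AB : ABt) (c : ℕ) : List ℕ := aL AB c ++ bL AB c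
def subB (X Y : List ℕ) : Bool := X.all fun x => Y.contains x
def meets (X Y : List ℕ) : Bool := X.any fun x => Y.contains x
def lamB (X Y : List ℕ) : Bool := !(meets X Y) || subB X Y || subB Y X
def edges (AB : ABt) (H : LL) (S : List ℕ) (c0 : ℕ) : LL :=
  (S.filter fun c => H.all fun h => !(subB (eL AB c0) h) || subB (eL AB c) h).map (eL AB) ++
    H.filter fun h => !(subB (eL AB c0) h)
def grow (R : List ℕ) (Ed : LL) (X : List ℕ) : List ℕ :=
  R.filter fun x => X.contains x || Ed.any fun e => meets e X && e.contains x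
def compL (R : List ℕ) (Ed : LL) (E : List ℕ) : List ℕ :=
  (grow R Ed)^[R.length] (R.filter fun x => E.contains x)
def crossing (AB : ABt) (H : LL) (S : List ℕ) : List (ℕ × List ℕ) :=
  S.flatMap fun c => (H.filter fun h =>
    meets (aL AB c) h && !(subB h (aL AB c)) && !(subB (eL AB c) h)).map fun h => (c, h)
def diffL (R X Y : List ℕ) : List ℕ := R.filter fun x => X.contains x && !(Y.contains x)
def unionL (R X Y : List ℕ) : List ℕ := R.filter fun x => X.contains x || Y.contains x
def eraseL (S : List ℕ) (c : ℕ) : List ℕ := S.filter fun c' => !(c' == c)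
def fire (R : List ℕ) (AB : ABt) (st : St) (ch : ℕ × List ℕ) : St :=
  (st.1 && subB (bL AB ch.1) ch.2,
    diffL R ch.2 (aL AB ch.1) :: unionL R ch.2 (aL AB ch.1) :: st.2.1, eraseL st.2.2 ch.1)
def satStep (R : List ℕ) (AB : ABt) (st : St) : St :=
  cond (crossing AB st.2.1 st.2.2).isEmpty st
    (fire R AB st ((crossing AB st.2.1 st.2.2).headD (0, [])))
def start (R : List ℕ) (AB : ABt) (H : LL) (S : List ℕ) (c0 : ℕ) (X : List ℕ) : St :=
  (true, diffL R X (aL AB c0) :: X :: H, eraseL S c0)
def saturate (R : List ℕ) (AB : ABt) (st : St) : St := (satStep R AB)^[AB.length] st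
def attempt (R : List ℕ) (AB : ABt) (H : LL) (S : List ℕ) (c0 : ℕ) : St :=
  saturate R AB (start R AB H S c0 (compL R (edges AB H S c0) (eL AB c0)))
def valid (st : St) : Bool := st.1 && st.2.1.all fun h => st.2.1.all fun h' => lamB h h'
def round (R : List ℕ) (AB : ABt) (hs : LL × List ℕ) : LL × List ℕ :=
  (((hs.2.map fun c0 => attempt R AB hs.1 hs.2 c0).filter fun st => valid st).headD
    (true, hs)).2
def accept (R : List ℕ) (AB : ABt) (S0 : List ℕ) : Bool :=
  ((round R AB)^[AB.length] ([], S0)).2.isEmpty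

/-- a list of lists as a family of finite sets -/
def toF (H : LL) : Finset (Finset ℕ) := (H.map List.toFinset).toFinset
def aF (AB : ABt) (c : ℕ) : Finset ℕ := (aL AB c).toFinset
def bF (AB : ABt) (c : ℕ) : Finset ℕ := (bL AB c).toFinset

theorem mem_toF {H : LL} {g : Finset ℕ} : g ∈ toF H ↔ ∃ h ∈ H, h.toFinset = g := by
  simp [toF]

theorem toF_cons (h : List ℕ) (H : LL) : toF (h :: H) = insert h.toFinset (toF H) := by
  simp [toF]

theorem subB_iff {X Y : List ℕ} : subB X Y = true ↔ X.toFinset ⊆ Y.toFinset := by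
  simp [subB, subset_iff]

theorem meets_iff {X Y : List ℕ} : meets X Y = true ↔ ∃ x ∈ X.toFinset, x ∈ Y.toFinset := by
  simp [meets]

theorem lamB_iff {X Y : List ℕ} : lamB X Y = true ↔ Lam X.toFinset Y.toFinset := by
  unfold lamB Lam
  rw [Bool.or_eq_true, Bool.or_eq_true, subB_iff, subB_iff, Bool.not_eq_true', ← Bool.not_eq_true,
    meets_iff, ← not_disjoint_iff, not_not, or_assoc]

theorem eL_toFinset (AB : ABt) (c : ℕ) : (eL AB c).toFinset = aF AB c ∪ bF AB c := by
  simp [eL, aF, bF]

theorem diffL_toFinset {R X Y : List ℕ} (h : X.toFinset ⊆ R.toFinset) :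
    (diffL R X Y).toFinset = X.toFinset \ Y.toFinset := by
  ext x
  have := @h x
  simp only [diffL, List.mem_toFinset, List.mem_filter, mem_sdiff, Bool.and_eq_true,
    List.contains_iff_mem, Bool.not_eq_true', ← Bool.not_eq_true] at this ⊢
  tauto

theorem unionL_toFinset {R X Y : List ℕ} (h : X.toFinset ⊆ R.toFinset)
    (h' : Y.toFinset ⊆ R.toFinset) : (unionL R X Y).toFinset = X.toFinset ∪ Y.toFinset := by
  ext x
  have h1 := @h x
  have h2 := @h' x
  simp only [unionL, List.mem_toFinset, List.mem_filter, mem_union, Bool.or_eq_true,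
    List.contains_iff_mem] at h1 h2 ⊢
  tauto

theorem eraseL_toFinset (S : List ℕ) (c : ℕ) : (eraseL S c).toFinset = S.toFinset.erase c := by
  ext x
  simp [eraseL, and_comm]

theorem eraseL_length {S : List ℕ} {c : ℕ} (h : c ∈ S) : (eraseL S c).length < S.length :=
  List.length_filter_lt_length_iff_exists.2 ⟨c, h, by simp⟩

theorem mem_edges {AB : ABt} {H : LL} {S : List ℕ} {c0 : ℕ} {e : Finset ℕ} :
    e ∈ toF (edges AB H S c0) ↔ Edge (aF AB) (bF AB) S.toFinset (toF H) c0 e := by
  unfold Edge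
  rw [mem_toF]
  constructor
  · rintro ⟨l, hl, rfl⟩
    rcases List.mem_append.1 hl with hl | hl
    · obtain ⟨c, hc, rfl⟩ := List.mem_map.1 hl
      obtain ⟨h1, h2⟩ := List.mem_filter.1 hc
      refine Or.inl ⟨c, List.mem_toFinset.2 h1, fun g hg hE => ?_, eL_toFinset AB c⟩
      obtain ⟨h, hh, rfl⟩ := mem_toF.1 hg
      have := List.all_eq_true.1 h2 h hh
      rw [← eL_toFinset, ← subB_iff] at hE ⊢
      simpa [hE] using this
    · obtain ⟨h1, h2⟩ := List.mem_filter.1 hl
      refine Or.inr ⟨mem_toF.2 ⟨l, h1, rfl⟩, ?_⟩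
      rw [← eL_toFinset, ← subB_iff]
      simpa using h2
  · rintro (⟨c, hc, h1, rfl⟩ | ⟨h1, h2⟩)
    · refine ⟨eL AB c, List.mem_append_left _ (List.mem_map.2 ⟨c, List.mem_filter.2
        ⟨List.mem_toFinset.1 hc, List.all_eq_true.2 fun h hh => ?_⟩, rfl⟩), eL_toFinset AB c⟩
      have := h1 _ (mem_toF.2 ⟨h, hh, rfl⟩)
      rw [← eL_toFinset, ← eL_toFinset, ← subB_iff, ← subB_iff] at this
      cases h0 : subB (eL AB c0) h
      · rfl
      · simpa using this h0
    · obtain ⟨h, hh, rfl⟩ := mem_toF.1 h1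
      refine ⟨h, List.mem_append_right _ (List.mem_filter.2 ⟨hh, ?_⟩), rfl⟩
      rw [← eL_toFinset, ← subB_iff] at h2
      simpa using h2

theorem mem_grow {R X : List ℕ} {Ed : LL} {x : ℕ} : x ∈ (grow R Ed X).toFinset ↔
    x ∈ R.toFinset ∧ (x ∈ X.toFinset ∨
      ∃ e ∈ toF Ed, (∃ y ∈ e, y ∈ X.toFinset) ∧ x ∈ e) := by
  simp only [grow, List.mem_toFinset, List.mem_filter, Bool.or_eq_true, List.contains_iff_mem,
    List.any_eq_true, Bool.and_eq_true, meets_iff, mem_toF]
  constructor
  · rintro ⟨h1, h2 | ⟨e, he, h3, h4⟩⟩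
    · exact ⟨h1, Or.inl h2⟩
    · exact ⟨h1, Or.inr ⟨_, ⟨e, he, rfl⟩, by simpa using h3, by simpa using h4⟩⟩
  · rintro ⟨h1, h2 | ⟨_, ⟨e, he, rfl⟩, h3, h4⟩⟩
    · exact ⟨h1, Or.inl h2⟩
    · exact ⟨h1, Or.inr ⟨e, he, by simpa using h3, by simpa using h4⟩⟩

theorem compL_spec {R E : List ℕ} {Ed : LL} (hE : E.toFinset ⊆ R.toFinset)
    (hEd : ∀ e ∈ toF Ed, e ⊆ R.toFinset) :
    E.toFinset ⊆ (compL R Ed E).toFinset ∧ (compL R Ed E).toFinset ⊆ R.toFinset ∧
    (∀ e ∈ toF Ed, (∃ x ∈ e, x ∈ (compL R Ed E).toFinset) → e ⊆ (compL R Ed E).toFinset) ∧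
    ∀ Y : Finset ℕ, (∀ e ∈ toF Ed, (∃ x ∈ e, x ∈ Y) → e ⊆ Y) → E.toFinset ⊆ Y →
      (compL R Ed E).toFinset ⊆ Y := by
  have key : ∀ j : ℕ, ∀ X, X = ((grow R Ed)^[j] (R.filter fun x => E.contains x)).toFinset →
      E.toFinset ⊆ X ∧ X ⊆ R.toFinset ∧
      ((∀ e ∈ toF Ed, (∃ x ∈ e, x ∈ X) → e ⊆ X) ∨ j ≤ X.card) ∧
      ∀ Y : Finset ℕ, (∀ e ∈ toF Ed, (∃ x ∈ e, x ∈ Y) → e ⊆ Y) → E.toFinset ⊆ Y → X ⊆ Y := by
    intro j
    induction j with
    | zero =>
      rintro X rfl
      refine ⟨fun x hx => ?_, fun x hx => ?_, Or.inr (Nat.zero_le _), fun Y _ h x hx => h ?_⟩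
      · have := hE hx
        simp at this hx ⊢
        exact ⟨this, hx⟩
      · simp at hx ⊢
        exact hx.1
      · simp at hx ⊢
        exact hx.2
    | succ j ih =>
      rintro X rfl
      rw [Function.iterate_succ_apply']
      obtain ⟨h1, h2, h3, h4⟩ := ih _ rfl
      set X0 := (grow R Ed)^[j] (R.filter fun x => E.contains x)
      have hs : X0.toFinset ⊆ (grow R Ed X0).toFinset :=
        fun x hx => mem_grow.2 ⟨h2 hx, Or.inl hx⟩
      refine ⟨h1.trans hs, fun x hx => (mem_grow.1 hx).1, ?_, fun Y hY hEY x hx => ?_⟩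
      · by_cases hc : ∀ e ∈ toF Ed, (∃ x ∈ e, x ∈ X0.toFinset) → e ⊆ X0.toFinset
        · left
          have : (grow R Ed X0).toFinset = X0.toFinset := by
            refine Subset.antisymm (fun x hx => ?_) hs
            rcases (mem_grow.1 hx).2 with h | ⟨e, he, h5, h6⟩
            · exact h
            · exact hc e he h5 h6
          rw [this]
          exact hc
        · right
          have h5 := h3.resolve_left hc
          push Not at hc
          obtain ⟨e, he, h6, h7⟩ := hc
          obtain ⟨x, hx, hx'⟩ := not_subset.1 h7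
          have : X0.toFinset ⊂ (grow R Ed X0).toFinset :=
            Finset.ssubset_iff_subset_ne.2 ⟨hs, fun h0 => hx' (by
              rw [h0]; exact mem_grow.2 ⟨hEd e he hx, Or.inr ⟨e, he, h6, hx⟩⟩)⟩
          have := card_lt_card this
          omega
      · rcases (mem_grow.1 hx).2 with h | ⟨e, he, ⟨y, h5, h6⟩, h7⟩
        · exact h4 Y hY hEY h
        · exact hY e he ⟨y, h5, h4 Y hY hEY h6⟩ h7
  obtain ⟨h1, h2, h3, h4⟩ := key R.length _ rfl
  refine ⟨h1, h2, ?_, h4⟩
  rcases h3 with h3 | h3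
  · exact h3
  · have : (compL R Ed E).toFinset = R.toFinset :=
      eq_of_subset_of_card_le h2 ((List.toFinset_card_le R).trans h3)
    rw [this]
    exact fun e he _ => hEd e he

theorem isComp {R : List ℕ} {AB : ABt} {H : LL} {S : List ℕ} {c0 : ℕ} (hc0 : c0 ∈ S)
    (hw : WF R.toFinset (aF AB) (bF AB) S.toFinset (toF H)) :
    IsComp R.toFinset (aF AB) (bF AB) S.toFinset (toF H) c0
      (compL R (edges AB H S c0) (eL AB c0)).toFinset := by
  have hE : ∀ c ∈ S.toFinset, aF AB c ∪ bF AB c ⊆ R.toFinset :=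
    fun c hc => union_subset (hw.AΩ c hc) (hw.BΩ c hc)
  obtain ⟨h1, h2, h3, h4⟩ := compL_spec (R := R) (E := eL AB c0) (Ed := edges AB H S c0)
    (by rw [eL_toFinset]; exact hE c0 (List.mem_toFinset.2 hc0)) (fun e he => by
      rcases mem_edges.1 he with ⟨c, hc, _, rfl⟩ | ⟨h, _⟩
      · exact hE c hc
      · exact hw.HΩ e h)
  rw [eL_toFinset] at h1 h4
  exact ⟨h1, h2, fun e he => h3 e (mem_edges.2 he),
    fun Y hY => h4 Y fun e he => hY e (mem_edges.1 he)⟩

theorem mem_crossing {AB : ABt} {H : LL} {S : List ℕ} {c : ℕ} {h : List ℕ} :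
    (c, h) ∈ crossing AB H S ↔ c ∈ S ∧ h ∈ H ∧ (∃ x ∈ aF AB c, x ∈ h.toFinset) ∧
      ¬ h.toFinset ⊆ aF AB c ∧ ¬ aF AB c ∪ bF AB c ⊆ h.toFinset := by
  rw [← eL_toFinset, aF, ← meets_iff, ← subB_iff, ← subB_iff]
  simp only [crossing, List.mem_flatMap, List.mem_map, List.mem_filter, Prod.mk.injEq,
    Bool.and_eq_true, Bool.not_eq_true', Bool.not_eq_true]
  constructor
  · rintro ⟨c', h1, h', ⟨h2, h3⟩, rfl, rfl⟩
    exact ⟨h1, h2, h3.1.1, h3.1.2, h3.2⟩
  · rintro ⟨h1, h2, h3, h4, h5⟩
    exact ⟨c, h1, h, ⟨h2, ⟨h3, h4⟩, h5⟩, rfl, rfl⟩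

theorem sat_of_crossing {AB : ABt} {H : LL} {S : List ℕ} (h : crossing AB H S = []) :
    Sat (aF AB) (bF AB) S.toFinset (toF H) := by
  intro c hc g hg
  obtain ⟨l, hl, rfl⟩ := mem_toF.1 hg
  by_contra hno
  push Not at hno
  have : (c, l) ∈ crossing AB H S :=
    mem_crossing.2 ⟨List.mem_toFinset.1 hc, hl, not_disjoint_iff.1 hno.1, hno.2.1, hno.2.2⟩
  rw [h] at this
  simp at this

theorem saturate_spec {R : List ℕ} {AB : ABt} {H : LL} {S : List ℕ}
    (hw : WF R.toFinset (aF AB) (bF AB) S.toFinset (toF H)) (hlen : S.length ≤ AB.length)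
    (st : St) (hst : st = saturate R AB (true, H, S)) :
    Run (aF AB) (bF AB) (toF H) S.toFinset (st.1 = true) (toF st.2.1) st.2.2.toFinset ∧
      Sat (aF AB) (bF AB) st.2.2.toFinset (toF st.2.1) ∧ st.2.2.length ≤ S.length := by
  have key : ∀ j : ℕ, ∀ st : St, st = (satStep R AB)^[j] (true, H, S) →
      Run (aF AB) (bF AB) (toF H) S.toFinset (st.1 = true) (toF st.2.1) st.2.2.toFinset ∧
      (crossing AB st.2.1 st.2.2 = [] ∨ st.2.2.length + j ≤ S.length) ∧
      st.2.2.length ≤ S.length := by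
    intro j
    induction j with
    | zero =>
      rintro st rfl
      refine ⟨?_, Or.inr le_rfl, le_rfl⟩
      simp only [Function.iterate_zero_apply]
      exact Run.init
    | succ j ih =>
      rintro st rfl
      rw [Function.iterate_succ_apply']
      obtain ⟨h1, h2, h3⟩ := ih _ rfl
      set s0 := (satStep R AB)^[j] (true, H, S)
      rcases hc : crossing AB s0.2.1 s0.2.2 with _ | ⟨⟨c, h⟩, t⟩
      · have : satStep R AB s0 = s0 := by simp [satStep, hc]
        rw [this]
        exact ⟨h1, Or.inl hc, h3⟩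
      · have e : satStep R AB s0 = fire R AB s0 (c, h) := by simp [satStep, hc]
        rw [e]
        obtain ⟨m1, m2, m3, m4, m5⟩ := mem_crossing.1 (hc ▸ List.mem_cons_self :
          (c, h) ∈ crossing AB s0.2.1 s0.2.2)
        have hw' := h1.wf hw
        have hh : h.toFinset ∈ toF s0.2.1 := mem_toF.2 ⟨h, m2, rfl⟩
        have hr := Run.step h1 (List.mem_toFinset.2 m1) hh m3 (not_subset.1 m4)
          (not_subset.1 m5)
        have hlt := eraseL_length m1
        refine ⟨?_, Or.inr ?_, ?_⟩
        · simp only [fire]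
          rw [toF_cons, toF_cons, diffL_toFinset (hw'.HΩ _ hh), unionL_toFinset (hw'.HΩ _ hh)
            (hw'.AΩ c (List.mem_toFinset.2 m1)), eraseL_toFinset, Bool.and_eq_true,
            propext subB_iff]
          exact hr
        · have := h2.resolve_left (by rw [hc]; simp)
          simp only [fire]
          omega
        · simp only [fire]
          omega
  obtain ⟨h1, h2, h3⟩ := key AB.length st hst
  refine ⟨h1, sat_of_crossing ?_, h3⟩
  rcases h2 with h2 | h2
  · exact h2
  · have : st.2.2 = [] := List.length_eq_zero_iff.1 (by omega)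
    rw [this]
    rfl

theorem attempt_spec {R : List ℕ} {AB : ABt} {H : LL} {S : List ℕ} {c0 : ℕ} (hc0 : c0 ∈ S)
    (hw : WF R.toFinset (aF AB) (bF AB) S.toFinset (toF H)) (hlen : S.length ≤ AB.length)
    (st : St) (hst : st = attempt R AB H S c0) :
    ∃ X, IsComp R.toFinset (aF AB) (bF AB) S.toFinset (toF H) c0 X ∧
      Run (aF AB) (bF AB) (insert (X \ aF AB c0) (insert X (toF H))) (S.toFinset.erase c0)
        (st.1 = true) (toF st.2.1) st.2.2.toFinset ∧
      Sat (aF AB) (bF AB) st.2.2.toFinset (toF st.2.1) ∧ st.2.2.length < S.length := by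
  have hX := isComp hc0 hw
  set X := compL R (edges AB H S c0) (eL AB c0)
  have e1 : toF (diffL R X (aL AB c0) :: X :: H) =
      insert (X.toFinset \ aF AB c0) (insert X.toFinset (toF H)) := by
    rw [toF_cons, toF_cons, diffL_toFinset hX.sub]
    rfl
  have hlt := eraseL_length hc0
  obtain ⟨h1, h2, h3⟩ := saturate_spec (R := R) (AB := AB)
    (H := diffL R X (aL AB c0) :: X :: H) (S := eraseL S c0)
    (by rw [e1, eraseL_toFinset]; exact wf_start hw hX) (by omega) st hst
  rw [e1, eraseL_toFinset] at h1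
  exact ⟨_, hX, h1, h2, by omega⟩

theorem valid_iff {st : St} : valid st = true ↔ st.1 = true ∧ LamF (toF st.2.1) := by
  simp only [valid, Bool.and_eq_true, List.all_eq_true, lamB_iff]
  refine and_congr_right fun _ => ⟨fun h g hg g' hg' => ?_, fun h l hl l' hl' =>
    h _ (mem_toF.2 ⟨l, hl, rfl⟩) _ (mem_toF.2 ⟨l', hl', rfl⟩)⟩
  obtain ⟨l, hl, rfl⟩ := mem_toF.1 hg
  obtain ⟨l', hl', rfl⟩ := mem_toF.1 hg'
  exact h l hl l' hl'

/-- the invariant of the main loop -/
structure Good (R : List ℕ) (AB : ABt) (hs : LL × List ℕ) : Prop where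
  wf : WF R.toFinset (aF AB) (bF AB) hs.2.toFinset (toF hs.1)
  lam : LamF (toF hs.1)
  sat : Sat (aF AB) (bF AB) hs.2.toFinset (toF hs.1)
  len : hs.2.length ≤ AB.length

theorem round_spec {R : List ℕ} {AB : ABt} {hs : LL × List ℕ} (hg : Good R AB hs) :
    Good R AB (round R AB hs) ∧
    (Feas R.toFinset (aF AB) (bF AB) (round R AB hs).2.toFinset (toF (round R AB hs).1) ↔
      Feas R.toFinset (aF AB) (bF AB) hs.2.toFinset (toF hs.1)) ∧
    (Feas R.toFinset (aF AB) (bF AB) hs.2.toFinset (toF hs.1) →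
      (round R AB hs).2.length ≤ hs.2.length - 1) := by
  obtain ⟨H, S⟩ := hs
  rcases hc : ((S.map fun c0 => attempt R AB H S c0).filter fun st => valid st) with _ | ⟨st, t⟩
  · have e : round R AB (H, S) = (H, S) := by simp [round, hc]
    rw [e]
    refine ⟨hg, Iff.rfl, fun hf => ?_⟩
    rcases S with _ | ⟨c1, S1⟩
    · simp
    · exfalso
      obtain ⟨c0, hc0, h⟩ := complete hg.wf hg.lam hg.sat ⟨c1, by simp⟩ hf
      have hc0' := List.mem_toFinset.1 hc0
      obtain ⟨X, hX, hr, -⟩ := attempt_spec hc0' hg.wf hg.len _ rfl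
      have hv := valid_iff.2 (h X hX _ _ _ hr)
      have : attempt R AB H (c1 :: S1) c0 ∈ (((c1 :: S1).map fun c0 =>
          attempt R AB H (c1 :: S1) c0).filter fun st => valid st) :=
        List.mem_filter.2 ⟨List.mem_map.2 ⟨c0, hc0', rfl⟩, hv⟩
      rw [hc] at this
      simp at this
  · have e : round R AB (H, S) = st.2 := by simp [round, hc]
    rw [e]
    have hm : st ∈ ((S.map fun c0 => attempt R AB H S c0).filter fun st => valid st) :=
      hc ▸ List.mem_cons_self
    obtain ⟨h1, h2⟩ := List.mem_filter.1 hm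
    obtain ⟨c0, hc0, h3⟩ := List.mem_map.1 h1
    obtain ⟨hok, hl⟩ := valid_iff.1 h2
    obtain ⟨X, hX, hr, hsat, hlt⟩ := attempt_spec hc0 hg.wf hg.len st h3.symm
    have hc0' := List.mem_toFinset.2 hc0
    have := hg.len
    refine ⟨⟨hr.wf (wf_start hg.wf hX), hl, hsat, by simp only at this hlt; omega⟩,
      ⟨back hg.wf hc0' hX hr hok hl, safe hg.wf hg.lam hg.sat hc0' hX hr hok hl hsat⟩,
      fun _ => by simp only; omega⟩

theorem accept_iff {R : List ℕ} {AB : ABt} {S0 : List ℕ}
    (hw : WF R.toFinset (aF AB) (bF AB) S0.toFinset ∅) (hlen : S0.length ≤ AB.length) :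
    accept R AB S0 = true ↔ Feas R.toFinset (aF AB) (bF AB) S0.toFinset ∅ := by
  have key : ∀ j : ℕ, ∀ hs, hs = (round R AB)^[j] ([], S0) → Good R AB hs ∧
      (Feas R.toFinset (aF AB) (bF AB) hs.2.toFinset (toF hs.1) ↔
        Feas R.toFinset (aF AB) (bF AB) S0.toFinset ∅) ∧
      (Feas R.toFinset (aF AB) (bF AB) S0.toFinset ∅ → hs.2.length ≤ S0.length - j) := by
    intro j
    induction j with
    | zero =>
      rintro hs rfl
      exact ⟨⟨hw, fun h hh => absurd hh (notMem_empty _),
        fun _ _ h hh => absurd hh (notMem_empty _), hlen⟩, Iff.rfl, fun _ => le_rfl⟩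
    | succ j ih =>
      rintro hs rfl
      rw [Function.iterate_succ_apply']
      obtain ⟨h1, h2, h3⟩ := ih _ rfl
      obtain ⟨g1, g2, g3⟩ := round_spec h1
      refine ⟨g1, g2.trans h2, fun hf => ?_⟩
      have := g3 (h2.2 hf)
      have := h3 hf
      omega
  obtain ⟨h1, h2, h3⟩ := key AB.length _ rfl
  unfold accept
  rw [List.isEmpty_iff]
  constructor
  · intro h
    refine h2.1 ?_
    rw [h]
    have hc : ∀ V, ¬ Cl (aF AB) ([] : List ℕ).toFinset (fun _ => ∅) V := by
      rintro V ⟨c, hc, _⟩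
      simp at hc
    exact ⟨fun _ => ∅, by simp, by simp, by simp, fun V _ h => absurd h (hc V),
      fun V h => absurd h (hc V)⟩
  · intro hf
    have := h3 hf
    exact List.length_eq_zero_iff.1 (by omega)

end Pool.Agent.Lib.MP_16be6a_lc
end

-- part Pool.Agent.Lib.MP_16be6a_lc.Poly
section

/-!
The algorithm runs in polynomial time.
-/

set_option autoImplicit false

namespace Pool.Agent.Lib.MP_16be6a_lc

open Pool.Agent.Shared.PolyTime Polynomial Enc

variable {α : Type} [Enc α]

theorem iterate_add {β : Type} [Enc β] {k : α → ℕ} {i : α → β} {st : α → β → β} (hk : PF k)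
    (hi : PF i) (hs : PF (fun p : α × β => st p.1 p.2))
    (hb : ∃ r : Polynomial ℕ, ∀ a b,
      (enc (st a b)).length ≤ (enc b).length + r.eval (enc a).length) :
    PF (fun a => (st a)^[k a] (i a)) := by
  obtain ⟨r, hr⟩ := hb
  obtain ⟨pk, hpk⟩ := hk.size
  obtain ⟨pi, hpi⟩ := hi.size
  refine PF.iterate hk hi hs ⟨pi + pk * r, fun a j hj => ?_⟩
  have key : ∀ j, (enc ((st a)^[j] (i a))).length ≤
      (enc (i a)).length + j * r.eval (enc a).length := by
    intro j
    induction j with
    | zero => simp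
    | succ j ih =>
      rw [Function.iterate_succ_apply', Nat.add_mul]
      have := hr a ((st a)^[j] (i a))
      omega
  have h1 := key j
  have h2 := hpi a _ le_rfl
  have h3 := hpk a _ le_rfl
  rw [len_nat] at h3
  have h4 := Nat.mul_le_mul_right (r.eval (enc a).length) (hj.trans h3)
  simp only [eval_add, eval_mul]
  omega

@[fun_prop] theorem pf_aL {AB : α → ABt} {c : α → ℕ} (h1 : PF AB) (h2 : PF c) :
    PF (fun a => aL (AB a) (c a)) := by unfold aL; fun_prop

@[fun_prop] theorem pf_bL {AB : α → ABt} {c : α → ℕ} (h1 : PF AB) (h2 : PF c) :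
    PF (fun a => bL (AB a) (c a)) := by unfold bL; fun_prop

@[fun_prop] theorem pf_eL {AB : α → ABt} {c : α → ℕ} (h1 : PF AB) (h2 : PF c) :
    PF (fun a => eL (AB a) (c a)) := by unfold eL; fun_prop

@[fun_prop] theorem pf_subB {X Y : α → List ℕ} (h1 : PF X) (h2 : PF Y) :
    PF (fun a => subB (X a) (Y a)) := by unfold subB; fun_prop

@[fun_prop] theorem pf_meets {X Y : α → List ℕ} (h1 : PF X) (h2 : PF Y) :
    PF (fun a => meets (X a) (Y a)) := by unfold meets; fun_prop

@[fun_prop] theorem pf_lamB {X Y : α → List ℕ} (h1 : PF X) (h2 : PF Y) :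
    PF (fun a => lamB (X a) (Y a)) := by unfold lamB; fun_prop

@[fun_prop] theorem pf_edges {AB : α → ABt} {H : α → LL} {S : α → List ℕ} {c : α → ℕ}
    (h1 : PF AB) (h2 : PF H) (h3 : PF S) (h4 : PF c) :
    PF (fun a => edges (AB a) (H a) (S a) (c a)) := by unfold edges; fun_prop

@[fun_prop] theorem pf_grow {R : α → List ℕ} {Ed : α → LL} {X : α → List ℕ}
    (h1 : PF R) (h2 : PF Ed) (h3 : PF X) : PF (fun a => grow (R a) (Ed a) (X a)) := by
  unfold grow; fun_prop

@[fun_prop] theorem pf_compL {R : α → List ℕ} {Ed : α → LL} {E : α → List ℕ}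
    (h1 : PF R) (h2 : PF Ed) (h3 : PF E) : PF (fun a => compL (R a) (Ed a) (E a)) := by
  unfold compL
  refine iterate_add (st := fun a => grow (R a) (Ed a)) (by fun_prop) (by fun_prop)
    (by fun_prop) ?_
  obtain ⟨p, hp⟩ := h1.size
  refine ⟨p, fun a b => ?_⟩
  have := (len_le_of_sublist (List.filter_sublist (l := R a) (p := fun x => b.contains x ||
    (Ed a).any fun e => meets e b && e.contains x))).trans (hp a _ le_rfl)
  unfold grow
  omega

@[fun_prop] theorem pf_crossing {AB : α → ABt} {H : α → LL} {S : α → List ℕ}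
    (h1 : PF AB) (h2 : PF H) (h3 : PF S) : PF (fun a => crossing (AB a) (H a) (S a)) := by
  unfold crossing; fun_prop

@[fun_prop] theorem pf_diffL {R X Y : α → List ℕ} (h1 : PF R) (h2 : PF X) (h3 : PF Y) :
    PF (fun a => diffL (R a) (X a) (Y a)) := by unfold diffL; fun_prop

@[fun_prop] theorem pf_unionL {R X Y : α → List ℕ} (h1 : PF R) (h2 : PF X) (h3 : PF Y) :
    PF (fun a => unionL (R a) (X a) (Y a)) := by unfold unionL; fun_prop

@[fun_prop] theorem pf_eraseL {S : α → List ℕ} {c : α → ℕ} (h1 : PF S) (h2 : PF c) :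
    PF (fun a => eraseL (S a) (c a)) := by unfold eraseL; fun_prop

@[fun_prop] theorem pf_fire {R : α → List ℕ} {AB : α → ABt} {st : α → St}
    {ch : α → ℕ × List ℕ} (h1 : PF R) (h2 : PF AB) (h3 : PF st) (h4 : PF ch) :
    PF (fun a => fire (R a) (AB a) (st a) (ch a)) := by unfold fire; fun_prop

@[fun_prop] theorem pf_satStep {R : α → List ℕ} {AB : α → ABt} {st : α → St}
    (h1 : PF R) (h2 : PF AB) (h3 : PF st) : PF (fun a => satStep (R a) (AB a) (st a)) := by
  unfold satStep; fun_prop

theorem len_diffL (R X Y : List ℕ) : (enc (diffL R X Y)).length ≤ (enc R).length :=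
  len_le_of_sublist List.filter_sublist

theorem len_unionL (R X Y : List ℕ) : (enc (unionL R X Y)).length ≤ (enc R).length :=
  len_le_of_sublist List.filter_sublist

theorem len_eraseL (S : List ℕ) (c : ℕ) : (enc (eraseL S c)).length ≤ (enc S).length :=
  len_le_of_sublist List.filter_sublist

theorem len_compL (R : List ℕ) (Ed : LL) (E : List ℕ) :
    (enc (compL R Ed E)).length ≤ (enc R).length := by
  unfold compL
  rcases R.length with _ | k
  · exact len_le_of_sublist List.filter_sublist
  · rw [Function.iterate_succ_apply']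
    exact len_le_of_sublist List.filter_sublist

theorem len_St (st : St) : (enc st).length = 2 * (enc st.2.1).length + (enc st.2.2).length + 4 := by
  obtain ⟨b, H, S⟩ := st
  simp only [len_prod, len_bool]
  omega

theorem len_satStep (R : List ℕ) (AB : ABt) (st : St) :
    (enc (satStep R AB st)).length ≤ (enc st).length + (8 * (enc R).length + 4) := by
  unfold satStep
  cases (crossing AB st.2.1 st.2.2).isEmpty
  · simp only [cond_false]
    generalize (crossing AB st.2.1 st.2.2).headD (0, []) = ch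
    rw [len_St, len_St st]
    simp only [fire, len_cons]
    have h1 := len_diffL R ch.2 (aL AB ch.1)
    have h2 := len_unionL R ch.2 (aL AB ch.1)
    have h3 := len_eraseL st.2.2 ch.1
    omega
  · simp

theorem len_saturate (R : List ℕ) (AB : ABt) (st : St) :
    (enc (saturate R AB st)).length ≤ (enc st).length + AB.length * (8 * (enc R).length + 4) := by
  unfold saturate
  induction AB.length with
  | zero => simp
  | succ k ih =>
    rw [Function.iterate_succ_apply', Nat.add_mul]
    have := len_satStep R AB ((satStep R AB)^[k] st)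
    omega

@[fun_prop] theorem pf_saturate {R : α → List ℕ} {AB : α → ABt} {st : α → St}
    (h1 : PF R) (h2 : PF AB) (h3 : PF st) : PF (fun a => saturate (R a) (AB a) (st a)) := by
  unfold saturate
  refine iterate_add (st := fun a => satStep (R a) (AB a)) (by fun_prop) h3 (by fun_prop) ?_
  obtain ⟨p, hp⟩ := h1.size
  refine ⟨8 * p + 4, fun a b => ?_⟩
  have h4 := len_satStep (R a) (AB a) b
  have h5 := hp a _ le_rfl
  simp only [eval_add, eval_mul, eval_ofNat]
  omega

@[fun_prop] theorem pf_attempt {R : α → List ℕ} {AB : α → ABt} {H : α → LL} {S : α → List ℕ}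
    {c : α → ℕ} (h0 : PF R) (h1 : PF AB) (h2 : PF H) (h3 : PF S) (h4 : PF c) :
    PF (fun a => attempt (R a) (AB a) (H a) (S a) (c a)) := by
  unfold attempt start; fun_prop

@[fun_prop] theorem pf_valid {st : α → St} (h : PF st) : PF (fun a => valid (st a)) := by
  unfold valid; fun_prop

@[fun_prop] theorem pf_round {R : α → List ℕ} {AB : α → ABt} {hs : α → LL × List ℕ}
    (h1 : PF R) (h2 : PF AB) (h3 : PF hs) : PF (fun a => round (R a) (AB a) (hs a)) := by
  unfold round; fun_prop

theorem len_round (R : List ℕ) (AB : ABt) (hs : LL × List ℕ) :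
    (enc (round R AB hs)).length ≤
      (enc hs).length + (AB.length + 1) * (8 * (enc R).length + 4) := by
  obtain ⟨H, S⟩ := hs
  rcases hc : ((S.map fun c0 => attempt R AB H S c0).filter fun st => valid st) with _ | ⟨st, t⟩
  · have e : round R AB (H, S) = (H, S) := by simp [round, hc]
    rw [e]
    omega
  · have e : round R AB (H, S) = st.2 := by simp [round, hc]
    rw [e]
    have hm : st ∈ ((S.map fun c0 => attempt R AB H S c0).filter fun st => valid st) :=
      hc ▸ List.mem_cons_self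
    obtain ⟨c0, _, h3⟩ := List.mem_map.1 (List.mem_filter.1 hm).1
    have h4 := len_saturate R AB (start R AB H S c0 (compL R (edges AB H S c0) (eL AB c0)))
    have h5 : saturate R AB (start R AB H S c0 (compL R (edges AB H S c0) (eL AB c0))) = st := h3
    rw [h5, len_St, len_St] at h4
    simp only [start, len_cons] at h4
    have h6 := len_diffL R (compL R (edges AB H S c0) (eL AB c0)) (aL AB c0)
    have h7 := len_compL R (edges AB H S c0) (eL AB c0)
    have h8 := len_eraseL S c0
    obtain ⟨b, H', S'⟩ := st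
    simp only [len_prod, Nat.add_mul] at h4 ⊢
    omega

@[fun_prop] theorem pf_accept {R : α → List ℕ} {AB : α → ABt} {S : α → List ℕ}
    (h1 : PF R) (h2 : PF AB) (h3 : PF S) : PF (fun a => accept (R a) (AB a) (S a)) := by
  unfold accept
  refine PF.isEmpty (PF.snd ?_)
  refine iterate_add (st := fun a => round (R a) (AB a)) (by fun_prop) (by fun_prop)
    (by fun_prop) ?_
  obtain ⟨p, hp⟩ := h1.size
  obtain ⟨q, hq⟩ := h2.size
  refine ⟨(q + 1) * (8 * p + 4), fun a b => ?_⟩
  have h4 := len_round (R a) (AB a) b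
  have h5 := hp a _ le_rfl
  have h6 := (length_le_len (AB a)).trans (hq a _ le_rfl)
  have h7 : ((AB a).length + 1) * (8 * (enc (R a)).length + 4) ≤
      (q.eval (enc a).length + 1) * (8 * p.eval (enc a).length + 4) :=
    Nat.mul_le_mul (by omega) (by omega)
  simp only [eval_add, eval_mul, eval_ofNat, eval_one]
  omega

/-- the species with a given entry number in column `c` -/
def colL (rows : LL) (q c : ℕ) : List ℕ :=
  (List.range rows.length).filter fun s => (rows.getD s []).getD c 0 == q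

/-- the pairs of sets of the characters -/
def mkAB (rows : LL) : ABt :=
  (List.range (rows.headD []).length).map fun c => (colL rows 1 c, colL rows 2 c)

/-- the decision procedure -/
def decideL (rows : LL) : Bool :=
  accept (List.range rows.length) (mkAB rows)
    ((List.range (rows.headD []).length).filter fun c => !(colL rows 1 c).isEmpty)

theorem pf_decideL : PF decideL := by
  unfold decideL mkAB colL
  fun_prop

/-- the matrix as a list of rows -/
def Inst.rows (I : Inst) : LL := List.ofFn fun s => List.ofFn fun c => (I.M s c).num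

theorem Inst.colL_eq (I : Inst) (q c : ℕ) : (colL I.rows q c).toFinset = I.col q c := by
  ext s
  simp only [colL, Inst.col, Inst.rows, List.mem_toFinset, List.mem_filter, List.length_ofFn,
    List.mem_range, Finset.mem_filter, Finset.mem_range, beq_iff_eq]
  refine and_congr_right fun hs => ?_
  unfold Inst.ent
  by_cases hc : c < I.m <;> simp [List.getD_eq_getElem?_getD, hs, hc]

theorem Inst.width (I : Inst) (hn : 0 < I.n) : (I.rows.headD []).length = I.m := by
  obtain ⟨n, m, M⟩ := I
  rcases n with _ | n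
  · simp at hn
  · simp [Inst.rows, List.ofFn_succ]

theorem Inst.col_empty (I : Inst) (q c : ℕ) (hq : q ≠ 0) (hc : ¬ c < (I.rows.headD []).length) :
    I.col q c = ∅ := by
  ext s
  simp only [Inst.col, Finset.mem_filter, Finset.mem_range, Finset.notMem_empty, iff_false]
  rintro ⟨h1, h2⟩
  rw [I.width (by omega)] at hc
  simp [Inst.ent, hc] at h2
  exact hq h2.symm

theorem Inst.aF_eq (I : Inst) : aF (mkAB I.rows) = I.col 1 := by
  funext c
  by_cases hc : c < (I.rows.headD []).length
  · rw [← I.colL_eq]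
    simp only [aF, aL, mkAB, List.getD_eq_getElem?_getD, List.getElem?_map,
      List.getElem?_range hc]
    rfl
  · rw [I.col_empty 1 c (by omega) hc]
    simp only [aF, aL, mkAB, List.getD_eq_getElem?_getD]
    rw [List.getElem?_eq_none (by simpa using hc)]
    rfl

theorem Inst.bF_eq (I : Inst) : bF (mkAB I.rows) = I.col 2 := by
  funext c
  by_cases hc : c < (I.rows.headD []).length
  · rw [← I.colL_eq]
    simp only [bF, bL, mkAB, List.getD_eq_getElem?_getD, List.getElem?_map,
      List.getElem?_range hc]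
    rfl
  · rw [I.col_empty 2 c (by omega) hc]
    simp only [bF, bL, mkAB, List.getD_eq_getElem?_getD]
    rw [List.getElem?_eq_none (by simpa using hc)]
    rfl

theorem Inst.decide_iff (I : Inst) : decideL I.rows = true ↔ I.HasSolution := by
  have e1 : (List.range I.rows.length).toFinset = Finset.range I.n := by
    ext s; simp [Inst.rows]
  have e2 : ((List.range (I.rows.headD []).length).filter
      fun c => !(colL I.rows 1 c).isEmpty).toFinset = I.S0 := by
    ext c
    simp only [List.mem_toFinset, List.mem_filter, List.mem_range, Inst.S0, Finset.mem_filter,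
      Finset.mem_range, ← I.colL_eq, List.toFinset_nonempty_iff, Bool.not_eq_true',
      List.isEmpty_eq_false_iff]
    refine and_congr_left fun h => ?_
    have hn : 0 < I.n := by
      rcases Nat.eq_zero_or_pos I.n with h0 | h0
      · exact absurd (by simp [colL, Inst.rows, h0]) h
      · exact h0
    rw [I.width hn]
  unfold decideL
  rw [accept_iff, e1, e2, I.aF_eq, I.bF_eq]
  · exact ⟨sol_of_feas I, feas_of_sol I⟩
  · rw [e1, e2, I.aF_eq, I.bF_eq]
    exact I.wf
  · simpa [mkAB] using List.length_filter_le _ (List.range (I.rows.headD []).length)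

end Pool.Agent.Lib.MP_16be6a_lc
end
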