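import Mathlib
import Pool.Agent.Lib.MP_16be6a_lc.Defs

-- part Pool.Agent.Lib.MP_16be6a_lc.Abs
section

/-!
Laminar reformulation: every character `c` has a set `A c` (state one) and a set `B c`
(state two); one has to choose `D c` containing `B c` and disjoint from `A c` such that all the
sets `D c` and `A c ∪ D c` form a laminar family.
-/

set_option autoImplicit false

namespace Pool.Agent.Lib.MP_16be6a_lc

open Finset

/-- disjoint or nested -/
def Lam (X Y : Finset ℕ) : Prop := Disjoint X Y ∨ X ⊆ Y ∨ Y ⊆ X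

theorem Lam.symm {X Y : Finset ℕ} (h : Lam X Y) : Lam Y X := by
  rcases h with h | h | h
  · exact Or.inl h.symm
  · exact Or.inr (Or.inr h)
  · exact Or.inr (Or.inl h)

theorem Lam.refl (X : Finset ℕ) : Lam X X := Or.inr (Or.inl Subset.rfl)

theorem Lam.sub {X Y : Finset ℕ} (h : Lam X Y) {x y : ℕ} (hx : x ∈ X) (hx' : x ∈ Y)
    (hy : y ∈ Y) (hy' : y ∉ X) : X ⊆ Y := by
  rcases h with h | h | h
  · exact absurd hx' (disjoint_left.1 h hx)
  · exact h
  · exact absurd (h hy) hy'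

theorem Lam.nest {X Y : Finset ℕ} (h : Lam X Y) {x : ℕ} (hx : x ∈ X) (hx' : x ∈ Y) :
    X ⊆ Y ∨ Y ⊆ X := by
  rcases h with h | h
  · exact absurd hx' (disjoint_left.1 h hx)
  · exact h

theorem Lam.sub_of_card {X Y : Finset ℕ} (h : Lam X Y) {x : ℕ} (hx : x ∈ X) (hx' : x ∈ Y)
    (hc : X.card ≤ Y.card) : X ⊆ Y := by
  rcases h.nest hx hx' with h | h
  · exact h
  · rw [eq_of_subset_of_card_le h hc]

section

variable (Ω : Finset ℕ) (A B : ℕ → Finset ℕ)

/-- the clusters of a choice `D` on the characters in `S` -/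
def Cl (S : Finset ℕ) (D : ℕ → Finset ℕ) (V : Finset ℕ) : Prop :=
  ∃ c ∈ S, V = D c ∨ V = A c ∪ D c

/-- `D` solves the characters in `S`, compatibly with the family `H` -/
structure Sol (S : Finset ℕ) (H : Finset (Finset ℕ)) (D : ℕ → Finset ℕ) : Prop where
  hB : ∀ c ∈ S, B c ⊆ D c
  hA : ∀ c ∈ S, Disjoint (A c) (D c)
  hΩ : ∀ c ∈ S, D c ⊆ Ω
  lam : ∀ V V', Cl A S D V → Cl A S D V' → Lam V V'
  lamH : ∀ V, Cl A S D V → ∀ h ∈ H, Lam V h

/-- no character of `S` crosses a member of `H` -/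
def Sat (S : Finset ℕ) (H : Finset (Finset ℕ)) : Prop :=
  ∀ c ∈ S, ∀ h ∈ H, Disjoint (A c) h ∨ h ⊆ A c ∨ A c ∪ B c ⊆ h

/-- basic well-formedness -/
structure WF (S : Finset ℕ) (H : Finset (Finset ℕ)) : Prop where
  ne : ∀ c ∈ S, (A c).Nonempty
  AB : ∀ c ∈ S, Disjoint (A c) (B c)
  AΩ : ∀ c ∈ S, A c ⊆ Ω
  BΩ : ∀ c ∈ S, B c ⊆ Ω
  HΩ : ∀ h ∈ H, h ⊆ Ω

/-- the family is laminar -/
def LamF (H : Finset (Finset ℕ)) : Prop := ∀ h ∈ H, ∀ h' ∈ H, Lam h h'

/-- `V` meets both `h` and its complement -/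
def Mixed (h V : Finset ℕ) : Prop := (∃ x ∈ V, x ∈ h) ∧ ∃ y ∈ V, y ∉ h

/-- any two mixed clusters meet -/
def Q (S : Finset ℕ) (D : ℕ → Finset ℕ) (h : Finset ℕ) : Prop :=
  ∀ V V', Cl A S D V → Cl A S D V' → Mixed h V → Mixed h V' → ∃ x ∈ V, x ∈ V'

/-- characters outside `h` with a target in `h` have meeting lower sets -/
def P (S : Finset ℕ) (D : ℕ → Finset ℕ) (h : Finset ℕ) : Prop :=
  ∀ c ∈ S, ∀ c' ∈ S, Disjoint (A c) h → Disjoint (A c') h → (∃ x ∈ B c, x ∈ h) →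
    (∃ x ∈ B c', x ∈ h) → ∃ x ∈ D c, x ∈ D c'

end

variable {Ω : Finset ℕ} {A B : ℕ → Finset ℕ}

theorem clD {S : Finset ℕ} (D : ℕ → Finset ℕ) {c : ℕ} (hc : c ∈ S) : Cl A S D (D c) :=
  ⟨c, hc, Or.inl rfl⟩

theorem clU {S : Finset ℕ} (D : ℕ → Finset ℕ) {c : ℕ} (hc : c ∈ S) :
    Cl A S D (A c ∪ D c) := ⟨c, hc, Or.inr rfl⟩

theorem Q_of_lam {S : Finset ℕ} {D : ℕ → Finset ℕ} {h : Finset ℕ}
    (hl : ∀ V, Cl A S D V → Lam V h) : Q A S D h := by
  rintro V V' hV hV' ⟨⟨x, hx, hxh⟩, y, hy, hyh⟩ ⟨⟨x', hx', hxh'⟩, y', hy', hyh'⟩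
  have h1 : h ⊆ V := (hl V hV).symm.sub hxh hx hy hyh
  have h2 : h ⊆ V' := (hl V' hV').symm.sub hxh' hx' hy' hyh'
  exact ⟨x, hx, h2 hxh⟩

theorem P_of_Q {S : Finset ℕ} {H : Finset (Finset ℕ)} {D : ℕ → Finset ℕ} {h : Finset ℕ}
    (hs : Sol Ω A B S H D) (hne : ∀ c ∈ S, (A c).Nonempty) (hq : Q A S D h) :
    P A B S D h := by
  rintro c hc c' hc' hA hA' ⟨b, hb, hbh⟩ ⟨b', hb', hbh'⟩
  have hbD := hs.hB c hc hb
  have hbD' := hs.hB c' hc' hb'
  obtain ⟨a, ha⟩ := hne c hc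
  obtain ⟨a', ha'⟩ := hne c' hc'
  obtain ⟨x, hx, hx'⟩ := hq _ _ (clU D hc) (clU D hc')
    ⟨⟨b, mem_union_right _ hbD, hbh⟩, a, mem_union_left _ ha, disjoint_left.1 hA ha⟩
    ⟨⟨b', mem_union_right _ hbD', hbh'⟩, a', mem_union_left _ ha', disjoint_left.1 hA' ha'⟩
  by_contra hno
  push Not at hno
  -- one of the two upper sets contains the other
  have key : ∀ c ∈ S, ∀ c' ∈ S, Disjoint (A c) h → Disjoint (A c') h → ∀ b ∈ D c, b ∈ h →
      ∀ b' ∈ D c', b' ∈ h → A c' ∪ D c' ⊆ A c ∪ D c → ∃ x ∈ D c, x ∈ D c' := by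
    intro c hc c' hc' hA hA' b hb hbh b' hb' hbh' hsub
    have h1 := hsub (mem_union_right _ hb')
    rcases mem_union.1 h1 with h1 | h1
    · exact absurd hbh' (disjoint_left.1 hA h1)
    · exact ⟨b', h1, hb'⟩
  rcases (hs.lam _ _ (clU D hc) (clU D hc')).nest hx hx' with h1 | h1
  · obtain ⟨y, hy, hy'⟩ := key c' hc' c hc hA' hA b' hbD' hbh' b hbD hbh h1
    exact hno y hy' hy
  · obtain ⟨y, hy, hy'⟩ := key c hc c' hc' hA hA' b hbD hbh b' hbD' hbh' h1
    exact hno y hy hy'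

/-- preservation of `Q` -/
theorem Q_step {S : Finset ℕ} {H : Finset (Finset ℕ)} {D : ℕ → Finset ℕ} {h h' : Finset ℕ}
    (hs : Sol Ω A B S H D) {c : ℕ} (hc : c ∈ S) (hq : Q A S D h)
    (hm : ∀ V, Cl A S D V → Mixed h V → ∃ x ∈ V, x ∈ A c ∪ D c)
    (hh : ∀ x, x ∉ A c → (x ∈ h' ↔ x ∈ h))
    (hh' : A c ⊆ h' ∨ Disjoint (A c) h') : Q A S D h' := by
  -- a mixed cluster avoiding `A c` is mixed for `h`
  have k1 : ∀ V, Mixed h' V → Disjoint V (A c) → Mixed h V := by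
    rintro V ⟨⟨x, hx, hxh⟩, y, hy, hyh⟩ hd
    exact ⟨⟨x, hx, (hh x (disjoint_left.1 hd hx)).1 hxh⟩, y, hy,
      fun h0 => hyh ((hh y (disjoint_left.1 hd hy)).2 h0)⟩
  have k2 : ∀ V, Mixed h' V → ∃ x ∈ V, x ∉ A c := by
    rintro V ⟨⟨x, hx, hxh⟩, y, hy, hyh⟩
    rcases hh' with h1 | h1
    · exact ⟨y, hy, fun h0 => hyh (h1 h0)⟩
    · exact ⟨x, hx, fun h0 => disjoint_left.1 h1 h0 hxh⟩
  -- position of a mixed cluster
  have k3 : ∀ V, Cl A S D V → Mixed h' V →
      A c ∪ D c ⊆ V ∨ (V ⊆ A c ∪ D c ∧ ∃ x ∈ V, x ∈ D c) := by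
    intro V hV hM
    have : ∃ x ∈ V, x ∈ A c ∪ D c := by
      by_cases hd : Disjoint V (A c)
      · exact hm V hV (k1 V hM hd)
      · obtain ⟨x, hx, hx'⟩ := not_disjoint_iff.1 hd
        exact ⟨x, hx, mem_union_left _ hx'⟩
    obtain ⟨x, hx, hx'⟩ := this
    rcases (hs.lam _ _ hV (clU D hc)).nest hx hx' with h1 | h1
    · obtain ⟨y, hy, hyA⟩ := k2 V hM
      rcases mem_union.1 (h1 hy) with h2 | h2
      · exact absurd h2 hyA
      · exact Or.inr ⟨h1, y, hy, h2⟩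
    · exact Or.inl h1
  intro V V' hV hV' hM hM'
  rcases k3 V hV hM with h1 | ⟨h1, x, hx, hxD⟩
  · rcases k3 V' hV' hM' with h2 | ⟨_, x', hx', hxD'⟩
    · obtain ⟨y, hy, hy'⟩ : ∃ y ∈ V, y ∈ A c ∪ D c := by
        by_cases hd : Disjoint V (A c)
        · exact hm V hV (k1 V hM hd)
        · obtain ⟨x, hx, hx'⟩ := not_disjoint_iff.1 hd
          exact ⟨x, hx, mem_union_left _ hx'⟩
      exact ⟨y, hy, h2 hy'⟩
    · exact ⟨x', h1 (mem_union_right _ hxD'), hx'⟩
  · rcases k3 V' hV' hM' with h2 | ⟨_, x', hx', hxD'⟩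
    · exact ⟨x, hx, h2 (mem_union_right _ hxD)⟩
    · rcases (hs.lam _ _ hV (clD D hc)).nest hx hxD with h3 | h3
      · rcases (hs.lam _ _ hV' (clD D hc)).nest hx' hxD' with h4 | h4
        · exact hq V V' hV hV'
            (k1 V hM (Disjoint.mono_left h3 (hs.hA c hc).symm))
            (k1 V' hM' (Disjoint.mono_left h4 (hs.hA c hc).symm))
        · exact ⟨x, hx, h4 hxD⟩
      · exact ⟨x', h3 hxD', hx'⟩

/-- a common representative -/
theorem exists_rep {S : Finset ℕ} {H : Finset (Finset ℕ)} {D : ℕ → Finset ℕ}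
    (hs : Sol Ω A B S H D) {g : Finset ℕ} (hg : g.Nonempty) (hp : P A B S D g) :
    ∃ r ∈ g, ∀ c ∈ S, Disjoint (A c) g → (∃ x ∈ B c, x ∈ g) → r ∈ D c := by
  classical
  by_cases hT : (S.filter fun c => Disjoint (A c) g ∧ ∃ x ∈ B c, x ∈ g).Nonempty
  · obtain ⟨c1, hc1, hmin⟩ := exists_min_image _ (fun c => (D c).card) hT
    obtain ⟨hc1S, hd1, b, hb, hbg⟩ := mem_filter.1 hc1
    refine ⟨b, hbg, fun c hc hd hx => ?_⟩
    obtain ⟨y, hy, hy'⟩ := hp c1 hc1S c hc hd1 hd ⟨b, hb, hbg⟩ hx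
    exact (hs.lam _ _ (clD D hc1S) (clD D hc)).sub_of_card hy hy'
      (hmin c (mem_filter.2 ⟨hc, hd, hx⟩)) (hs.hB c1 hc1S hb)
  · obtain ⟨r, hr⟩ := hg
    exact ⟨r, hr, fun c hc hd hx => absurd ⟨c, mem_filter.2 ⟨hc, hd, hx⟩⟩ hT⟩

/-- The general gluing theorem. -/
theorem glue {S : Finset ℕ} {H0 H : Finset (Finset ℕ)} {D : ℕ → Finset ℕ}
    (hs : Sol Ω A B S H0 D) (hw : WF Ω A B S H) (hl : LamF H) (hsat : Sat A B S H)
    (hp : ∀ h ∈ H, P A B S D h) :
    ∃ D', Sol Ω A B S H D' ∧ ∀ c ∈ S,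
      (∀ h ∈ H, A c ∪ B c ⊆ h → D' c ⊆ h) ∧
      ∀ x ∈ Ω, (∀ h ∈ H, A c ∪ B c ⊆ h → x ∈ h) → x ∈ A c ∪ D c →
        (∀ h ∈ H, ¬ A c ∪ B c ⊆ h → x ∈ h → h ⊆ A c ∪ D c) → x ∈ A c ∪ D' c := by
  classical
  -- the block of `x` seen from a set `E`
  have hG : ∀ (E : Finset ℕ) (x : ℕ), ∃ g : Finset ℕ, x ∈ g ∧ (g = {x} ∨ (g ∈ H ∧ ¬ E ⊆ g)) ∧
      ∀ h ∈ H, ¬ E ⊆ h → x ∈ h → h ⊆ g := by
    intro E x
    by_cases hT : (H.filter fun h => ¬ E ⊆ h ∧ x ∈ h).Nonempty
    · obtain ⟨g, hg, hmax⟩ := exists_max_image _ (fun h => h.card) hT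
      obtain ⟨hgH, hgE, hgx⟩ := mem_filter.1 hg
      exact ⟨g, hgx, Or.inr ⟨hgH, hgE⟩, fun h hh hE hx =>
        (hl h hh g hgH).sub_of_card hx hgx (hmax h (mem_filter.2 ⟨hh, hE, hx⟩))⟩
    · exact ⟨{x}, mem_singleton_self x, Or.inl rfl, fun h hh hE hx =>
        absurd ⟨h, mem_filter.2 ⟨hh, hE, hx⟩⟩ hT⟩
  -- uniqueness of the block
  have hGu : ∀ (E E' : Finset ℕ) (x y : ℕ) (g g' : Finset ℕ),
      (∀ h ∈ H, E ⊆ h ↔ E' ⊆ h) →
      (x ∈ g ∧ (g = {x} ∨ (g ∈ H ∧ ¬ E ⊆ g)) ∧ ∀ h ∈ H, ¬ E ⊆ h → x ∈ h → h ⊆ g) →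
      (y ∈ g' ∧ (g' = {y} ∨ (g' ∈ H ∧ ¬ E' ⊆ g')) ∧ ∀ h ∈ H, ¬ E' ⊆ h → y ∈ h → h ⊆ g') →
      y ∈ g → g ⊆ g' := by
    rintro E E' x y g g' hE ⟨hx, h1, _⟩ ⟨hy, _, h4⟩ hyg
    rcases h1 with rfl | ⟨h1, h1'⟩
    · rw [mem_singleton] at hyg
      subst hyg
      simpa using hy
    · exact h4 g h1 (fun h0 => h1' ((hE g h1).2 h0)) hyg
  choose G hG using hG
  have hrep : ∀ g : Finset ℕ, ∃ r : ℕ, (g.Nonempty → P A B S D g → r ∈ g ∧
      ∀ c ∈ S, Disjoint (A c) g → (∃ x ∈ B c, x ∈ g) → r ∈ D c) := by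
    intro g
    by_cases h : g.Nonempty ∧ P A B S D g
    · obtain ⟨r, hr⟩ := exists_rep hs h.1 h.2
      exact ⟨r, fun _ _ => hr⟩
    · exact ⟨0, fun h1 h2 => absurd ⟨h1, h2⟩ h⟩
  choose r hr using hrep
  have hPG : ∀ E x, P A B S D (G E x) := by
    intro E x
    rcases (hG E x).2.1 with h | h
    · rw [h]
      rintro c hc c' hc' _ _ ⟨b, hb, hbx⟩ ⟨b', hb', hbx'⟩
      rw [mem_singleton] at hbx hbx'
      subst hbx
      exact ⟨b, hs.hB c hc hb, hs.hB c' hc' (hbx' ▸ hb')⟩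
    · exact hp _ h.1
  have hr1 : ∀ E x, r (G E x) ∈ G E x := fun E x => (hr _ ⟨x, (hG E x).1⟩ (hPG E x)).1
  have hr2 : ∀ E x, ∀ c ∈ S, Disjoint (A c) (G E x) → (∃ y ∈ B c, y ∈ G E x) →
      r (G E x) ∈ D c := fun E x => (hr _ ⟨x, (hG E x).1⟩ (hPG E x)).2
  -- the block is inside or outside `A c`
  have hAG : ∀ c ∈ S, ∀ x, Disjoint (A c) (G (A c ∪ B c) x) ∨ G (A c ∪ B c) x ⊆ A c := by
    intro c hc x
    rcases (hG (A c ∪ B c) x).2.1 with h | ⟨h, h'⟩
    · rw [h]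
      by_cases hx : x ∈ A c
      · exact Or.inr (by simpa using hx)
      · exact Or.inl (by simpa using hx)
    · rcases hsat c hc _ h with h1 | h1 | h1
      · exact Or.inl h1
      · exact Or.inr h1
      · exact absurd h1 h'
  let Φ : ℕ → Finset ℕ → Finset ℕ := fun c V =>
    Ω.filter fun x => (∀ h ∈ H, A c ∪ B c ⊆ h → x ∈ h) ∧ r (G (A c ∪ B c) x) ∈ V
  have hΦA : ∀ c ∈ S, Φ c (A c ∪ D c) = A c ∪ Φ c (D c) := by
    intro c hc
    ext x
    simp only [Φ, mem_filter, mem_union]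
    constructor
    · rintro ⟨h1, h2, h3 | h3⟩
      · rcases hAG c hc x with h | h
        · exact absurd (hr1 _ x) (disjoint_left.1 h h3)
        · exact Or.inl (h (hG _ x).1)
      · exact Or.inr ⟨h1, h2, h3⟩
    · rintro (h1 | ⟨h1, h2, h3⟩)
      · refine ⟨hw.AΩ c hc h1, fun h _ hE => hE (mem_union_left _ h1), Or.inl ?_⟩
        rcases hAG c hc x with h | h
        · exact absurd (hG _ x).1 (disjoint_left.1 h h1)
        · exact h (hr1 _ x)
      · exact ⟨h1, h2, Or.inr h3⟩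
  have hcl : ∀ V, Cl A S (fun c => Φ c (D c)) V → ∃ c ∈ S, ∃ W, Cl A S D W ∧ V = Φ c W ∧
      (W = D c ∨ W = A c ∪ D c) := by
    rintro V ⟨c, hc, rfl | rfl⟩
    · exact ⟨c, hc, D c, clD D hc, rfl, Or.inl rfl⟩
    · exact ⟨c, hc, A c ∪ D c, clU D hc, (hΦA c hc).symm, Or.inr rfl⟩
  -- a member of `H` not containing `E c` is inside or outside
  have hio : ∀ c ∈ S, ∀ W, ∀ h ∈ H, ¬ A c ∪ B c ⊆ h → Disjoint (Φ c W) h ∨ h ⊆ Φ c W := by
    intro c hc W h hh hE
    by_cases hd : Disjoint (Φ c W) h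
    · exact Or.inl hd
    right
    obtain ⟨x, hx, hxh⟩ := not_disjoint_iff.1 hd
    obtain ⟨_, hx2, hx3⟩ := mem_filter.1 hx
    intro y hy
    refine mem_filter.2 ⟨hw.HΩ h hh hy, fun h' hh' hE' => ?_, ?_⟩
    · rcases (hl h hh h' hh').nest hxh (hx2 h' hh' hE') with h1 | h1
      · exact h1 hy
      · exact absurd (hE'.trans h1) hE
    · have e1 : G (A c ∪ B c) y = G (A c ∪ B c) x := by
        apply Subset.antisymm
        · exact hGu _ _ y x _ _ (fun _ _ => Iff.rfl) (hG _ y) (hG _ x)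
            ((hG _ y).2.2 h hh hE hy hxh)
        · exact hGu _ _ x y _ _ (fun _ _ => Iff.rfl) (hG _ x) (hG _ y)
            ((hG _ x).2.2 h hh hE hxh hy)
      rw [e1]
      exact hx3
  have hin : ∀ c W, ∀ h ∈ H, A c ∪ B c ⊆ h → Φ c W ⊆ h :=
    fun c W h hh hE x hx => (mem_filter.1 hx).2.1 h hh hE
  refine ⟨fun c => Φ c (D c), ⟨?_, ?_, ?_, ?_, ?_⟩, ?_⟩
  · intro c hc x hx
    refine mem_filter.2 ⟨hw.BΩ c hc hx, fun h _ hE => hE (mem_union_right _ hx), ?_⟩
    refine hr2 _ x c hc ?_ ⟨x, hx, (hG _ x).1⟩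
    rcases hAG c hc x with h | h
    · exact h
    · exact absurd hx (disjoint_left.1 (hw.AB c hc) (h (hG _ x).1))
  · intro c hc
    rw [disjoint_left]
    intro x hx hx'
    rcases hAG c hc x with h | h
    · exact disjoint_left.1 h hx (hG _ x).1
    · exact disjoint_left.1 (hs.hA c hc) (h (hr1 _ x)) (mem_filter.1 hx').2.2
  · intro c _
    exact filter_subset _ _
  · intro V V' hV hV'
    obtain ⟨c, hc, W, hW, rfl, -⟩ := hcl V hV
    obtain ⟨c', hc', W', hW', rfl, -⟩ := hcl V' hV'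
    by_cases hty : ∀ h ∈ H, A c ∪ B c ⊆ h ↔ A c' ∪ B c' ⊆ h
    · have e1 : ∀ x, G (A c' ∪ B c') x = G (A c ∪ B c) x := by
        intro x
        apply Subset.antisymm
        · exact hGu _ _ x x _ _ (fun h hh => (hty h hh).symm) (hG _ x) (hG _ x) (hG _ x).1
        · exact hGu _ _ x x _ _ hty (hG _ x) (hG _ x) (hG _ x).1
      have e2 : ∀ x, (∀ h ∈ H, A c' ∪ B c' ⊆ h → x ∈ h) ↔ ∀ h ∈ H, A c ∪ B c ⊆ h → x ∈ h :=
        fun x => ⟨fun h0 h hh hE => h0 h hh ((hty h hh).1 hE),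
          fun h0 h hh hE => h0 h hh ((hty h hh).2 hE)⟩
      rcases hs.lam _ _ hW hW' with h | h | h
      · left
        rw [disjoint_left]
        intro x hx hx'
        have h1 := (mem_filter.1 hx).2.2
        have h2 := (mem_filter.1 hx').2.2
        rw [e1] at h2
        exact disjoint_left.1 h h1 h2
      · right; left
        intro x hx
        obtain ⟨h1, h2, h3⟩ := mem_filter.1 hx
        exact mem_filter.2 ⟨h1, (e2 x).2 h2, by rw [e1]; exact h h3⟩
      · right; right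
        intro x hx
        obtain ⟨h1, h2, h3⟩ := mem_filter.1 hx
        exact mem_filter.2 ⟨h1, (e2 x).1 h2, by rw [← e1]; exact h h3⟩
    · push Not at hty
      obtain ⟨h, hh, ⟨h1, h2⟩ | ⟨h1, h2⟩⟩ := hty
      · rcases hio c' hc' W' h hh h2 with h3 | h3
        · exact Or.inl (Disjoint.mono_left (hin c W h hh h1) h3.symm)
        · exact Or.inr (Or.inl ((hin c W h hh h1).trans h3))
      · rcases hio c hc W h hh h1 with h3 | h3
        · exact Or.inl (Disjoint.mono_right (hin c' W' h hh h2) h3)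
        · exact Or.inr (Or.inr ((hin c' W' h hh h2).trans h3))
  · intro V hV h hh
    obtain ⟨c, hc, W, _, rfl, -⟩ := hcl V hV
    by_cases hE : A c ∪ B c ⊆ h
    · exact Or.inr (Or.inl (hin c W h hh hE))
    · rcases hio c hc W h hh hE with h3 | h3
      · exact Or.inl h3
      · exact Or.inr (Or.inr h3)
  · intro c hc
    refine ⟨fun h hh hE => hin c _ h hh hE, fun x hx h1 h2 h3 => ?_⟩
    rw [← hΦA c hc]
    refine mem_filter.2 ⟨hx, h1, ?_⟩
    rcases (hG (A c ∪ B c) x).2.1 with h | ⟨h, h'⟩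
    · have := hr1 (A c ∪ B c) x
      rw [h, mem_singleton] at this
      rw [h, this]
      exact h2
    · exact h3 _ h h' (hG _ x).1 (hr1 _ x)

end Pool.Agent.Lib.MP_16be6a_lc
end

-- part Pool.Agent.Lib.MP_16be6a_lc.Step
section

/-!
One round of the algorithm, abstractly: take the component of a character, guess that the
character is gained at the top of the component, and propagate.
-/

set_option autoImplicit false

namespace Pool.Agent.Lib.MP_16be6a_lc

open Finset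

section

variable (Ω : Finset ℕ) (A B : ℕ → Finset ℕ)

/-- hyperedges used for the component of `c0` -/
def Edge (S : Finset ℕ) (H : Finset (Finset ℕ)) (c0 : ℕ) (e : Finset ℕ) : Prop :=
  (∃ c ∈ S, (∀ h ∈ H, A c0 ∪ B c0 ⊆ h → A c ∪ B c ⊆ h) ∧ e = A c ∪ B c) ∨
    (e ∈ H ∧ ¬ A c0 ∪ B c0 ⊆ e)

/-- closed under the hyperedges -/
def Closed (S : Finset ℕ) (H : Finset (Finset ℕ)) (c0 : ℕ) (X : Finset ℕ) : Prop :=
  ∀ e, Edge A B S H c0 e → (∃ x ∈ e, x ∈ X) → e ⊆ X

/-- the component -/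
structure IsComp (S : Finset ℕ) (H : Finset (Finset ℕ)) (c0 : ℕ) (X : Finset ℕ) : Prop where
  base : A c0 ∪ B c0 ⊆ X
  sub : X ⊆ Ω
  closed : Closed A B S H c0 X
  min : ∀ Y, Closed A B S H c0 Y → A c0 ∪ B c0 ⊆ Y → X ⊆ Y

/-- propagation -/
inductive Run (H1 : Finset (Finset ℕ)) (S1 : Finset ℕ) :
    Prop → Finset (Finset ℕ) → Finset ℕ → Prop
  | init : Run H1 S1 True H1 S1
  | step {ok : Prop} {H : Finset (Finset ℕ)} {S : Finset ℕ} {c : ℕ} {h : Finset ℕ} :
      Run H1 S1 ok H S → c ∈ S → h ∈ H → (∃ x ∈ A c, x ∈ h) → (∃ x ∈ h, x ∉ A c) →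
      (∃ x ∈ A c ∪ B c, x ∉ h) →
      Run H1 S1 (ok ∧ B c ⊆ h) (insert (h \ A c) (insert (h ∪ A c) H)) (S.erase c)

/-- feasibility -/
def Feas (S : Finset ℕ) (H : Finset (Finset ℕ)) : Prop := ∃ D, Sol Ω A B S H D

end

variable {Ω : Finset ℕ} {A B : ℕ → Finset ℕ}

theorem addX {S : Finset ℕ} {H : Finset (Finset ℕ)} {D : ℕ → Finset ℕ} {c0 : ℕ} {X : Finset ℕ}
    (hs : Sol Ω A B S H D) (hw : WF Ω A B S H) (hl : LamF H) (hsat : Sat A B S H)
    (hc0 : c0 ∈ S) (hX : IsComp Ω A B S H c0 X) :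
    LamF (insert X H) ∧ ∃ D1, Sol Ω A B S (insert X H) D1 ∧
      (X ⊆ A c0 ∪ D c0 → D1 c0 = X \ A c0) := by
  classical
  have hin : ∀ h ∈ H, A c0 ∪ B c0 ⊆ h → X ⊆ h := by
    intro h hh hE
    refine hX.min h ?_ hE
    rintro e (⟨c, _, h1, rfl⟩ | ⟨h1, h2⟩) ⟨x, hx, hxh⟩
    · exact h1 h hh hE
    · rcases (hl e h1 h hh).nest hx hxh with h3 | h3
      · exact h3
      · exact absurd (hE.trans h3) h2
  have hlx : ∀ h ∈ H, Lam X h := by
    intro h hh
    by_cases hE : A c0 ∪ B c0 ⊆ h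
    · exact Or.inr (Or.inl (hin h hh hE))
    · by_cases hd : Disjoint X h
      · exact Or.inl hd
      · obtain ⟨x, hx, hxh⟩ := not_disjoint_iff.1 hd
        exact Or.inr (Or.inr (hX.closed h (Or.inr ⟨hh, hE⟩) ⟨x, hxh, hx⟩))
  have hl' : LamF (insert X H) := by
    intro h hh h' hh'
    rcases mem_insert.1 hh with e | g1
    · rcases mem_insert.1 hh' with e' | g2
      · rw [e, e']; exact Lam.refl _
      · rw [e]; exact hlx h' g2
    · rcases mem_insert.1 hh' with e' | g2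
      · rw [e']; exact (hlx h g1).symm
      · exact hl h g1 h' g2
  have hcase : ∀ c ∈ S, (Disjoint (A c ∪ B c) X ∨ A c ∪ B c ⊆ X) ∨
      ∃ h ∈ H, X ⊆ h ∧ ¬ A c ∪ B c ⊆ h := by
    intro c hc
    by_cases hE : ∀ h ∈ H, A c0 ∪ B c0 ⊆ h → A c ∪ B c ⊆ h
    · left
      by_cases hd : Disjoint (A c ∪ B c) X
      · exact Or.inl hd
      · exact Or.inr (hX.closed _ (Or.inl ⟨c, hc, hE, rfl⟩) (not_disjoint_iff.1 hd))
    · push Not at hE
      obtain ⟨h, hh, h1, h2⟩ := hE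
      exact Or.inr ⟨h, hh, hin h hh h1, h2⟩
  have hsat' : Sat A B S (insert X H) := by
    intro c hc h hh
    rcases mem_insert.1 hh with rfl | hh
    · rcases hcase c hc with (h1 | h1) | ⟨h', hh', h1, h2⟩
      · exact Or.inl (Disjoint.mono_left subset_union_left h1)
      · exact Or.inr (Or.inr h1)
      · rcases hsat c hc h' hh' with h3 | h3 | h3
        · exact Or.inl (Disjoint.mono_right h1 h3)
        · exact Or.inr (Or.inl (h1.trans h3))
        · exact absurd h3 h2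
    · exact hsat c hc h hh
  have hw' : WF Ω A B S (insert X H) :=
    ⟨hw.ne, hw.AB, hw.AΩ, hw.BΩ, fun h hh => by
      rcases mem_insert.1 hh with rfl | hh
      · exact hX.sub
      · exact hw.HΩ h hh⟩
  have hp : ∀ h ∈ insert X H, P A B S D h := by
    intro h hh
    rcases mem_insert.1 hh with rfl | hh
    · have key : ∀ c ∈ S, Disjoint (A c) h → (∃ x ∈ B c, x ∈ h) → h ⊆ D c := by
        rintro c hc hd ⟨b, hb, hbh⟩
        obtain ⟨a, ha⟩ := hw.ne c hc
        rcases hcase c hc with (h1 | h1) | ⟨h', hh', h1, h2⟩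
        · exact absurd hbh (disjoint_left.1 h1 (mem_union_right _ hb))
        · exact absurd (h1 (mem_union_left _ ha)) (disjoint_left.1 hd ha)
        · have hd' : Disjoint (A c) h' := by
            rcases hsat c hc h' hh' with h3 | h3 | h3
            · exact h3
            · exact absurd hb (disjoint_left.1 (hw.AB c hc) (h3 (h1 hbh)))
            · exact absurd h3 h2
          have h4 : h' ⊆ A c ∪ D c := (hs.lamH _ (clU D hc) h' hh').symm.sub (h1 hbh)
            (mem_union_right _ (hs.hB c hc hb)) (mem_union_left _ ha) (disjoint_left.1 hd' ha)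
          intro y hy
          rcases mem_union.1 (h4 (h1 hy)) with h5 | h5
          · exact absurd hy (disjoint_left.1 hd h5)
          · exact h5
      rintro c hc c' hc' hd hd' ⟨b, hb, hbh⟩ hb'
      exact ⟨b, key c hc hd ⟨b, hb, hbh⟩ hbh, key c' hc' hd' hb' hbh⟩
    · exact P_of_Q hs hw.ne (Q_of_lam fun V hV => hs.lamH V hV h hh)
  obtain ⟨D1, hD1, hex⟩ := glue hs hw' hl' hsat' hp
  refine ⟨hl', D1, hD1, fun hXU => ?_⟩
  obtain ⟨e1, e2⟩ := hex c0 hc0
  ext x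
  rw [mem_sdiff]
  constructor
  · intro hx
    exact ⟨e1 X (mem_insert_self _ _) hX.base hx,
      fun ha => disjoint_left.1 (hD1.hA c0 hc0) ha hx⟩
  · rintro ⟨hx, hxA⟩
    have := e2 x (hX.sub hx) (fun h hh hE => by
      rcases mem_insert.1 hh with rfl | hh
      · exact hx
      · exact hin h hh hE hx) (hXU hx) (fun h hh hE hxh => by
      rcases mem_insert.1 hh with rfl | hh
      · exact hXU
      · exact (hX.closed h (Or.inr ⟨hh, hE⟩) ⟨x, hxh, hx⟩).trans hXU)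
    rcases mem_union.1 this with h | h
    · exact absurd h hxA
    · exact h

namespace Run

variable {H1 H : Finset (Finset ℕ)} {S1 S : Finset ℕ} {ok : Prop}

theorem sub (hr : Run A B H1 S1 ok H S) : S ⊆ S1 ∧ H1 ⊆ H := by
  induction hr with
  | init => exact ⟨Subset.rfl, Subset.rfl⟩
  | step _ _ _ _ _ _ ih =>
    exact ⟨(erase_subset _ _).trans ih.1,
      ih.2.trans ((subset_insert _ _).trans (subset_insert _ _))⟩

theorem wf (hr : Run A B H1 S1 ok H S) (hw : WF Ω A B S1 H1) : WF Ω A B S H := by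
  induction hr with
  | init => exact hw
  | @step ok H S c h _ hc hh _ _ _ ih =>
    have hs := erase_subset c S
    refine ⟨fun c hc => ih.ne c (hs hc), fun c hc => ih.AB c (hs hc),
      fun c hc => ih.AΩ c (hs hc), fun c hc => ih.BΩ c (hs hc), fun g hg => ?_⟩
    rcases mem_insert.1 hg with rfl | hg
    · exact sdiff_subset.trans (ih.HΩ h hh)
    · rcases mem_insert.1 hg with rfl | hg
      · exact union_subset (ih.HΩ h hh) (ih.AΩ c hc)
      · exact ih.HΩ g hg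

theorem q (hr : Run A B H1 S1 ok H S) {S0 : Finset ℕ} {H0 : Finset (Finset ℕ)}
    {D : ℕ → Finset ℕ} (hs : Sol Ω A B S0 H0 D) (h01 : S1 ⊆ S0) (hq : ∀ h ∈ H1, Q A S0 D h) :
    ok → ∀ h ∈ H, Q A S0 D h := by
  induction hr with
  | init => exact fun _ => hq
  | @step ok H S c h hr hc hh h1 h2 h3 ih =>
    rintro ⟨hok, hB⟩ g hg
    have hc0 : c ∈ S0 := h01 (hr.sub.1 hc)
    have hQ := ih hok h hh
    have hm : ∀ V, Cl A S0 D V → Mixed h V → ∃ x ∈ V, x ∈ A c ∪ D c := by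
      intro V hV hM
      obtain ⟨x, hx, hxh⟩ := h1
      obtain ⟨y, hy, hyh⟩ := h3
      refine hQ V _ hV (clU D hc0) hM ⟨⟨x, mem_union_left _ hx, hxh⟩, y, ?_, hyh⟩
      rcases mem_union.1 hy with h4 | h4
      · exact mem_union_left _ h4
      · exact absurd (hB h4) hyh
    rcases mem_insert.1 hg with rfl | hg
    · exact Q_step hs hc0 hQ hm (fun x hx => by simp [hx]) (Or.inr disjoint_sdiff)
    · rcases mem_insert.1 hg with rfl | hg
      · exact Q_step hs hc0 hQ hm (fun x hx => by simp [hx]) (Or.inl subset_union_right)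
      · exact ih hok g hg

theorem back (hr : Run A B H1 S1 ok H S) (hw : ∀ c ∈ S1, Disjoint (A c) (B c)) :
    ok → ∀ c ∈ S1, c ∉ S → ∃ d ∈ H, B c ⊆ d ∧ Disjoint (A c) d ∧ A c ∪ d ∈ H := by
  induction hr with
  | init => exact fun _ c h1 h2 => absurd h1 h2
  | @step ok H S c h hr hc hh h1 h2 h3 ih =>
    rintro ⟨hok, hB⟩ c' hc' hn
    by_cases e : c' = c
    · subst e
      refine ⟨h \ A c', mem_insert_self _ _, fun x hx => mem_sdiff.2 ⟨hB hx, fun ha =>
        disjoint_left.1 (hw c' hc') ha hx⟩, disjoint_sdiff, ?_⟩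
      have : A c' ∪ h \ A c' = h ∪ A c' := by
        ext x; simp only [mem_union, mem_sdiff]; tauto
      rw [this]
      exact mem_insert_of_mem (mem_insert_self _ _)
    · obtain ⟨d, hd, h4, h5, h6⟩ := ih hok c' hc' (fun h0 => hn (mem_erase.2 ⟨e, h0⟩))
      exact ⟨d, mem_insert_of_mem (mem_insert_of_mem hd), h4, h5,
        mem_insert_of_mem (mem_insert_of_mem h6)⟩

theorem compl (hr : Run A B H1 S1 ok H S) {S0 : Finset ℕ} {H0 : Finset (Finset ℕ)}
    {D : ℕ → Finset ℕ} (hs : Sol Ω A B S0 H0 D) (h01 : S1 ⊆ S0)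
    (h1 : ∀ h ∈ H1, h ∈ H0 ∨ Cl A S0 D h) : ok ∧ ∀ h ∈ H, h ∈ H0 ∨ Cl A S0 D h := by
  induction hr with
  | init => exact ⟨trivial, h1⟩
  | @step ok H S c h hr hc hh h2 h3 h4 ih =>
    have hc0 : c ∈ S0 := h01 (hr.sub.1 hc)
    have hl : ∀ V, Cl A S0 D V → Lam V h := by
      intro V hV
      rcases ih.2 h hh with h5 | h5
      · exact hs.lamH V hV h h5
      · exact hs.lam _ _ hV h5
    obtain ⟨x, hx, hxh⟩ := h2
    obtain ⟨y, hy, hyA⟩ := h3
    obtain ⟨z, hz, hzh⟩ := h4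
    have hzU : z ∈ A c ∪ D c := by
      rcases mem_union.1 hz with h5 | h5
      · exact mem_union_left _ h5
      · exact mem_union_right _ (hs.hB c hc0 h5)
    have e1 : h ⊆ A c ∪ D c :=
      (hl _ (clU D hc0)).symm.sub hxh (mem_union_left _ hx) hzU hzh
    have hyD : y ∈ D c := by
      rcases mem_union.1 (e1 hy) with h5 | h5
      · exact absurd h5 hyA
      · exact h5
    have e2 : D c ⊆ h :=
      (hl _ (clD D hc0)).sub hyD hy hxh (disjoint_left.1 (hs.hA c hc0) hx)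
    have e3 : h \ A c = D c := by
      ext w
      rw [mem_sdiff]
      constructor
      · rintro ⟨h5, h6⟩
        rcases mem_union.1 (e1 h5) with h7 | h7
        · exact absurd h7 h6
        · exact h7
      · exact fun h5 => ⟨e2 h5, fun h6 => disjoint_left.1 (hs.hA c hc0) h6 h5⟩
    have e4 : h ∪ A c = A c ∪ D c := by
      rw [← e3]
      ext w; simp only [mem_union, mem_sdiff]; tauto
    refine ⟨⟨ih.1, (hs.hB c hc0).trans e2⟩, fun g hg => ?_⟩
    rcases mem_insert.1 hg with rfl | hg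
    · exact Or.inr (e3 ▸ clD D hc0)
    · rcases mem_insert.1 hg with rfl | hg
      · exact Or.inr (e4 ▸ clU D hc0)
      · exact ih.2 g hg

end Run

theorem Sol.mono {S S' : Finset ℕ} {H H' : Finset (Finset ℕ)} {D : ℕ → Finset ℕ}
    (hs : Sol Ω A B S H D) (h1 : S' ⊆ S) (h2 : H' ⊆ H) : Sol Ω A B S' H' D := by
  have hc : ∀ V, Cl A S' D V → Cl A S D V := fun V ⟨c, hc, h⟩ => ⟨c, h1 hc, h⟩
  exact ⟨fun c h => hs.hB c (h1 h), fun c h => hs.hA c (h1 h), fun c h => hs.hΩ c (h1 h),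
    fun V V' h h' => hs.lam V V' (hc V h) (hc V' h'),
    fun V h g hg => hs.lamH V (hc V h) g (h2 hg)⟩

theorem wf_start {S : Finset ℕ} {H : Finset (Finset ℕ)} {c0 : ℕ} {X : Finset ℕ}
    (hw : WF Ω A B S H) (hX : IsComp Ω A B S H c0 X) :
    WF Ω A B (S.erase c0) (insert (X \ A c0) (insert X H)) := by
  have hs := erase_subset c0 S
  refine ⟨fun c hc => hw.ne c (hs hc), fun c hc => hw.AB c (hs hc),
    fun c hc => hw.AΩ c (hs hc), fun c hc => hw.BΩ c (hs hc), fun g hg => ?_⟩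
  rcases mem_insert.1 hg with rfl | hg
  · exact sdiff_subset.trans hX.sub
  · rcases mem_insert.1 hg with rfl | hg
    · exact hX.sub
    · exact hw.HΩ g hg

/-- A guess that propagates without conflict is safe. -/
theorem safe {S S' : Finset ℕ} {H H' : Finset (Finset ℕ)} {c0 : ℕ} {X : Finset ℕ} {ok : Prop}
    (hw : WF Ω A B S H) (hl : LamF H) (hsat : Sat A B S H)
    (hc0 : c0 ∈ S) (hX : IsComp Ω A B S H c0 X)
    (hr : Run A B (insert (X \ A c0) (insert X H)) (S.erase c0) ok H' S') (hok : ok)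
    (hl' : LamF H') (hsat' : Sat A B S' H') (hf : Feas Ω A B S H) : Feas Ω A B S' H' := by
  obtain ⟨D, hs⟩ := hf
  obtain ⟨_, D1, hD1, -⟩ := addX hs hw hl hsat hc0 hX
  have hq0 : ∀ h ∈ insert X H, Q A S D1 h :=
    fun h hh => Q_of_lam fun V hV => hD1.lamH V hV h hh
  have hq : ∀ h ∈ insert (X \ A c0) (insert X H), Q A S D1 h := by
    intro h hh
    rcases mem_insert.1 hh with rfl | hh
    · refine Q_step hD1 hc0 (hq0 X (mem_insert_self _ _)) ?_ (fun x hx => by simp [hx])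
        (Or.inr disjoint_sdiff)
      rintro V hV ⟨⟨x, hx, hxX⟩, y, hy, hyX⟩
      obtain ⟨a, ha⟩ := hw.ne c0 hc0
      have : X ⊆ V := (hD1.lamH V hV X (mem_insert_self _ _)).symm.sub hxX hx hy hyX
      exact ⟨a, this (hX.base (mem_union_left _ ha)), mem_union_left _ ha⟩
    · exact hq0 h hh
  have hS' : S' ⊆ S := hr.sub.1.trans (erase_subset _ _)
  have hq' := hr.q hD1 (erase_subset _ _) hq hok
  have hw' := hr.wf (wf_start hw hX)
  have hD1' : Sol Ω A B S' ∅ D1 := hD1.mono hS' (empty_subset _)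
  obtain ⟨D2, hD2, -⟩ := glue hD1' hw' hl' hsat' (fun h hh => P_of_Q hD1' hw'.ne
    (fun V V' ⟨c, hc, e⟩ ⟨c', hc', e'⟩ => hq' h hh V V' ⟨c, hS' hc, e⟩ ⟨c', hS' hc', e'⟩))
  exact ⟨D2, hD2⟩

/-- A solution after the round gives a solution before the round. -/
theorem back {S S' : Finset ℕ} {H H' : Finset (Finset ℕ)} {c0 : ℕ} {X : Finset ℕ} {ok : Prop}
    (hw : WF Ω A B S H) (hc0 : c0 ∈ S) (hX : IsComp Ω A B S H c0 X)
    (hr : Run A B (insert (X \ A c0) (insert X H)) (S.erase c0) ok H' S') (hok : ok)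
    (hl' : LamF H') (hf : Feas Ω A B S' H') : Feas Ω A B S H := by
  classical
  obtain ⟨D', hs⟩ := hf
  have hw' := hr.wf (wf_start hw hX)
  have hb := hr.back (fun c hc => hw.AB c (erase_subset _ _ hc)) hok
  have hex : ∀ c, ∃ d, c ∈ S → c ∉ S' →
      d ∈ H' ∧ B c ⊆ d ∧ Disjoint (A c) d ∧ A c ∪ d ∈ H' := by
    intro c
    by_cases hc : c ∈ S ∧ c ∉ S'
    · by_cases e : c = c0
      · subst e
        refine ⟨X \ A c, fun _ _ => ⟨hr.sub.2 (mem_insert_self _ _), fun x hx =>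
          mem_sdiff.2 ⟨hX.base (mem_union_right _ hx), fun ha =>
            disjoint_left.1 (hw.AB c hc.1) ha hx⟩, disjoint_sdiff, ?_⟩⟩
        rw [union_sdiff_of_subset (subset_union_left.trans hX.base)]
        exact hr.sub.2 (mem_insert_of_mem (mem_insert_self _ _))
      · obtain ⟨d, h⟩ := hb c (mem_erase.2 ⟨e, hc.1⟩) hc.2
        exact ⟨d, fun _ _ => h⟩
    · exact ⟨∅, fun h1 h2 => absurd ⟨h1, h2⟩ hc⟩
  choose d hd using hex
  have hH : H ⊆ H' := ((subset_insert _ _).trans (subset_insert _ _)).trans hr.sub.2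
  have hcl : ∀ V, Cl A S (fun c => if c ∈ S' then D' c else d c) V →
      Cl A S' D' V ∨ V ∈ H' := by
    rintro V ⟨c, hc, e⟩
    by_cases h : c ∈ S'
    · simp only [h, if_true] at e
      exact Or.inl ⟨c, h, e⟩
    · simp only [h, if_false] at e
      rcases e with rfl | rfl
      · exact Or.inr (hd c hc h).1
      · exact Or.inr (hd c hc h).2.2.2
  refine ⟨fun c => if c ∈ S' then D' c else d c, ?_, ?_, ?_, ?_, ?_⟩
  · intro c hc
    by_cases h : c ∈ S'
    · simpa [h] using hs.hB c h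
    · simpa [h] using (hd c hc h).2.1
  · intro c hc
    by_cases h : c ∈ S'
    · simpa [h] using hs.hA c h
    · simpa [h] using (hd c hc h).2.2.1
  · intro c hc
    by_cases h : c ∈ S'
    · simpa [h] using hs.hΩ c h
    · simpa [h] using hw'.HΩ _ (hd c hc h).1
  · intro V V' hV hV'
    rcases hcl V hV with h | h
    · rcases hcl V' hV' with h' | h'
      · exact hs.lam _ _ h h'
      · exact hs.lamH _ h _ h'
    · rcases hcl V' hV' with h' | h'
      · exact (hs.lamH _ h' _ h).symm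
      · exact hl' _ h _ h'
  · intro V hV g hg
    rcases hcl V hV with h | h
    · exact hs.lamH _ h _ (hH hg)
    · exact hl' _ h _ (hH hg)

/-- In a feasible state some guess propagates without conflict. -/
theorem complete {S : Finset ℕ} {H : Finset (Finset ℕ)}
    (hw : WF Ω A B S H) (hl : LamF H) (hsat : Sat A B S H) (hne : S.Nonempty)
    (hf : Feas Ω A B S H) : ∃ c0 ∈ S, ∀ X, IsComp Ω A B S H c0 X → ∀ ok H' S',
      Run A B (insert (X \ A c0) (insert X H)) (S.erase c0) ok H' S' → ok ∧ LamF H' := by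
  obtain ⟨D, hs⟩ := hf
  obtain ⟨c0, hc0, hmax⟩ := exists_max_image S (fun c => (A c ∪ D c).card) hne
  refine ⟨c0, hc0, fun X hX ok H' S' hr => ?_⟩
  obtain ⟨hl1, D1, hD1, he⟩ := addX hs hw hl hsat hc0 hX
  have hEU : ∀ c ∈ S, A c ∪ B c ⊆ A c ∪ D c :=
    fun c hc => union_subset_union Subset.rfl (hs.hB c hc)
  have hXU : X ⊆ A c0 ∪ D c0 := by
    refine hX.min _ ?_ (hEU c0 hc0)
    rintro e (⟨c, hc, _, rfl⟩ | ⟨h1, h2⟩) ⟨x, hx, hxU⟩
    · exact (hEU c hc).trans ((hs.lam _ _ (clU D hc) (clU D hc0)).sub_of_card (hEU c hc hx) hxU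
        (hmax c hc))
    · rcases (hs.lamH _ (clU D hc0) e h1).nest hxU hx with h3 | h3
      · exact absurd ((hEU c0 hc0).trans h3) h2
      · exact h3
  have he' := he hXU
  obtain ⟨hok, hcl⟩ := hr.compl hD1 (erase_subset _ _) (fun h hh => by
    rcases mem_insert.1 hh with rfl | hh
    · exact Or.inr (he' ▸ clD D1 hc0)
    · exact Or.inl hh)
  refine ⟨hok, fun h hh h' hh' => ?_⟩
  rcases hcl h hh with h1 | h1
  · rcases hcl h' hh' with h2 | h2
    · exact hl1 _ h1 _ h2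
    · exact (hD1.lamH _ h2 _ h1).symm
  · rcases hcl h' hh' with h2 | h2
    · exact hD1.lamH _ h1 _ h2
    · exact hD1.lam _ _ h1 h2

end Pool.Agent.Lib.MP_16be6a_lc
end

-- part Pool.Agent.Lib.MP_16be6a_lc.Tree
section

/-!
Trees versus laminar families.
-/

set_option autoImplicit false

namespace Pool.Agent.Lib.MP_16be6a_lc

open Finset

/-- the entry number, zero outside the matrix -/
def Inst.ent (I : Inst) (s c : ℕ) : ℕ :=
  if h : s < I.n ∧ c < I.m then (I.M ⟨s, h.1⟩ ⟨c, h.2⟩).num else 0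

/-- species with entry number `q` -/
def Inst.col (I : Inst) (q c : ℕ) : Finset ℕ := (range I.n).filter fun s => I.ent s c = q

/-- characters with a species in state one -/
def Inst.S0 (I : Inst) : Finset ℕ := (range I.m).filter fun c => (I.col 1 c).Nonempty

theorem Inst.mem_col (I : Inst) (q : ℕ) (s : Fin I.n) (c : Fin I.m) :
    (s : ℕ) ∈ I.col q c ↔ (I.M s c).num = q := by
  simp [Inst.col, Inst.ent]

theorem Inst.wf (I : Inst) : WF (range I.n) (I.col 1) (I.col 2) I.S0 ∅ := by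
  refine ⟨fun c hc => (mem_filter.1 hc).2, fun c _ => ?_, fun c _ => filter_subset _ _,
    fun c _ => filter_subset _ _, fun h hh => absurd hh (notMem_empty _)⟩
  rw [disjoint_left]
  intro x h1 h2
  have := (mem_filter.1 h1).2
  have := (mem_filter.1 h2).2
  omega

theorem feas_of_sol (I : Inst) (h : I.HasSolution) :
    Feas (range I.n) (I.col 1) (I.col 2) I.S0 ∅ := by
  classical
  obtain ⟨V, _, root, par, label, l, hroot, hreach, h0, h1, h2, h3, h4, h5⟩ := h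
  choose x hx using h5
  have mono : ∀ v c, l (par v) c ≤ l v c := by
    intro v c
    by_cases hv : v = root
    · rw [hv, hroot]
    by_cases hl : ∀ q, (c, q) ∉ label v
    · rw [h2 v hv c hl]
    · push Not at hl
      obtain ⟨q, hq⟩ := hl
      rw [h1 v hv c q hq]
      rcases h4 v hv c q hq with ⟨e1, e2⟩ | ⟨e1, e2⟩ <;> rw [e1, e2] <;> decide
  have monoK : ∀ k v c, l (par^[k] v) c ≤ l v c := by
    intro k
    induction k with
    | zero => intro v c; exact le_rfl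
    | succ k ih => intro v c; rw [Function.iterate_succ_apply]; exact (ih _ c).trans (mono v c)
  have up : ∀ c (q : Fin 3), q ≠ 0 → ∀ k v, par^[k] v = root → q ≤ l v c →
      ∃ y, y ≠ root ∧ (c, q) ∈ label y ∧ ∃ j, par^[j] v = y := by
    intro c q hq k
    induction k with
    | zero =>
      intro v hv hle
      rw [Function.iterate_zero_apply] at hv
      rw [hv, h0] at hle
      exact absurd (le_antisymm hle (Fin.zero_le _)) hq
    | succ k ih =>
      intro v hv hle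
      by_cases hvr : v = root
      · rw [hvr, h0] at hle
        exact absurd (le_antisymm hle (Fin.zero_le _)) hq
      by_cases hp : q ≤ l (par v) c
      · obtain ⟨y, hy, hl, j, hj⟩ := ih (par v) (by rwa [Function.iterate_succ_apply] at hv) hp
        exact ⟨y, hy, hl, j + 1, by rwa [Function.iterate_succ_apply]⟩
      · by_cases hl : ∀ q, (c, q) ∉ label v
        · rw [h2 v hvr c hl] at hle
          exact absurd hle hp
        · push Not at hl
          obtain ⟨q', hq'⟩ := hl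
          have e := h1 v hvr c q' hq'
          have : q = q' := by
            rw [e] at hle
            rcases h4 v hvr c q' hq' with ⟨e1, e2⟩ | ⟨e1, e2⟩
            · rw [e1] at hp; subst e2; clear ih; revert q; decide
            · rw [e1] at hp; subst e2; clear ih; revert q; decide
          exact ⟨v, hvr, this ▸ hq', 0, rfl⟩
  -- level sets
  let W : Fin I.m → Fin 3 → Finset ℕ := fun c q =>
    (range I.n).filter fun s => ∃ hs : s < I.n, q ≤ l (x ⟨s, hs⟩) c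
  have hsub : ∀ c q c' q', q ≠ 0 → ∀ v y y' j j', y ≠ root → (c, q) ∈ label y →
      y' ≠ root → (c', q') ∈ label y' → par^[j] v = y → par^[j'] v = y' → j ≤ j' →
      W c q ⊆ W c' q' := by
    intro c q c' q' hq v y y' j j' hy hl hy' hl' hj hj' hle s hs
    obtain ⟨hs1, hs2, hs3⟩ := mem_filter.1 hs
    refine mem_filter.2 ⟨hs1, hs2, ?_⟩
    obtain ⟨k, hk⟩ := hreach (x ⟨s, hs2⟩)
    obtain ⟨y1, hy1, hl1, i, hi⟩ := up c q hq k _ hk hs3
    have e : y1 = y := h3 y1 y hy1 hy _ hl1 hl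
    have e' : par^[j' - j + i] (x ⟨s, hs2⟩) = y' := by
      rw [Function.iterate_add_apply, hi, e, ← hj, ← Function.iterate_add_apply,
        Nat.sub_add_cancel hle, hj']
    have := monoK (j' - j + i) (x ⟨s, hs2⟩) c'
    rwa [e', h1 y' hy' c' q' hl'] at this
  have hlam : ∀ c q c' q', q ≠ 0 → q' ≠ 0 → Lam (W c q) (W c' q') := by
    intro c q c' q' hq hq'
    by_cases hd : Disjoint (W c q) (W c' q')
    · exact Or.inl hd
    obtain ⟨s, hs, hs'⟩ := not_disjoint_iff.1 hd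
    obtain ⟨_, hs2, hs3⟩ := mem_filter.1 hs
    obtain ⟨_, _, hs3'⟩ := mem_filter.1 hs'
    obtain ⟨k, hk⟩ := hreach (x ⟨s, hs2⟩)
    obtain ⟨y, hy, hl, j, hj⟩ := up c q hq k _ hk hs3
    obtain ⟨y', hy', hl', j', hj'⟩ := up c' q' hq' k _ hk hs3'
    rcases le_total j j' with hle | hle
    · exact Or.inr (Or.inl (hsub c q c' q' hq _ y y' j j' hy hl hy' hl' hj hj' hle))
    · exact Or.inr (Or.inr (hsub c' q' c q hq' _ y' y j' j hy' hl' hy hl hj' hj hle))
  have hmem : ∀ c q (s : Fin I.n), (s : ℕ) ∈ W c q ↔ q ≤ l (x s) c := by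
    intro c q s
    simp [W]
  have hU : ∀ c : Fin I.m, I.col 1 c ∪ W c 2 = W c 1 := by
    intro c
    ext s
    by_cases hs : s < I.n
    · have e1 := I.mem_col 1 ⟨s, hs⟩ c
      have e2 := hmem c 2 ⟨s, hs⟩
      have e3 := hmem c 1 ⟨s, hs⟩
      have e4 := hx ⟨s, hs⟩ c
      rw [mem_union]
      simp only at e1 e2 e3
      rw [e1, e2, e3]
      revert e4
      generalize l (x ⟨s, hs⟩) c = a
      cases I.M ⟨s, hs⟩ c <;> simp only [Entry.states, Entry.num] <;> revert a <;> decide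
    · simp [W, Inst.col, hs]
  let D : ℕ → Finset ℕ := fun c => if hc : c < I.m then W ⟨c, hc⟩ 2 else ∅
  have hcl : ∀ U, Cl (I.col 1) I.S0 D U → ∃ c q, q ≠ 0 ∧ U = W c q := by
    rintro U ⟨c, hc, e⟩
    have hc' : c < I.m := mem_range.1 (mem_filter.1 hc).1
    simp only [D, hc', dite_true] at e
    rcases e with rfl | rfl
    · exact ⟨_, 2, by decide, rfl⟩
    · exact ⟨⟨c, hc'⟩, 1, by decide, hU ⟨c, hc'⟩⟩
  refine ⟨D, fun c hc s hs => ?_, fun c hc => ?_, fun c hc => ?_, fun U U' hU hU' => ?_,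
    fun _ _ h hh => absurd hh (notMem_empty _)⟩
  · have hc' : c < I.m := mem_range.1 (mem_filter.1 hc).1
    have hs' : s < I.n := mem_range.1 (mem_filter.1 hs).1
    simp only [D, hc', dite_true]
    have e1 := (I.mem_col 2 ⟨s, hs'⟩ ⟨c, hc'⟩).1 hs
    have e4 := hx ⟨s, hs'⟩ ⟨c, hc'⟩
    refine (hmem _ 2 ⟨s, hs'⟩).2 ?_
    revert e1 e4
    generalize l (x ⟨s, hs'⟩) ⟨c, hc'⟩ = a
    cases I.M ⟨s, hs'⟩ ⟨c, hc'⟩ <;> simp only [Entry.states, Entry.num] <;> revert a <;> decide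
  · have hc' : c < I.m := mem_range.1 (mem_filter.1 hc).1
    simp only [D, hc', dite_true]
    rw [disjoint_left]
    intro s hs hs2
    have hs' : s < I.n := mem_range.1 (mem_filter.1 hs).1
    have e1 := (I.mem_col 1 ⟨s, hs'⟩ ⟨c, hc'⟩).1 hs
    have e2 := (hmem _ 2 ⟨s, hs'⟩).1 hs2
    have e4 := hx ⟨s, hs'⟩ ⟨c, hc'⟩
    revert e1 e2 e4
    generalize l (x ⟨s, hs'⟩) ⟨c, hc'⟩ = a
    cases I.M ⟨s, hs'⟩ ⟨c, hc'⟩ <;> simp only [Entry.states, Entry.num] <;> revert a <;> decide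
  · have hc' : c < I.m := mem_range.1 (mem_filter.1 hc).1
    simp only [D, hc', dite_true]
    exact filter_subset _ _
  · obtain ⟨c, q, hq, rfl⟩ := hcl U hU
    obtain ⟨c', q', hq', rfl⟩ := hcl U' hU'
    exact hlam c q c' q' hq hq'

theorem sol_of_feas (I : Inst) (h : Feas (range I.n) (I.col 1) (I.col 2) I.S0 ∅) :
    I.HasSolution := by
  classical
  obtain ⟨D, hs⟩ := h
  let D' : ℕ → Finset ℕ := fun c => if c ∈ I.S0 then D c else range I.n
  let F : Fin I.m × Bool → Finset ℕ := fun e => cond e.2 (D' e.1) (I.col 1 e.1 ∪ D' e.1)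
  have hcolΩ : ∀ q c, I.col q c ⊆ range I.n := fun q c => filter_subset _ _
  have hD'Ω : ∀ c, D' c ⊆ range I.n := by
    intro c
    by_cases hc : c ∈ I.S0
    · simpa [D', hc] using hs.hΩ c hc
    · simp [D', hc]
  have hFΩ : ∀ e, F e ⊆ range I.n := by
    rintro ⟨c, _ | _⟩
    · exact union_subset (hcolΩ 1 c) (hD'Ω c)
    · exact hD'Ω c
  have hFc : ∀ e, Cl (I.col 1) I.S0 D (F e) ∨ F e = range I.n := by
    rintro ⟨c, b⟩
    by_cases hc : (c : ℕ) ∈ I.S0
    · left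
      cases b
      · simpa [F, D', hc] using clU D hc
      · simpa [F, D', hc] using clD D hc
    · right
      cases b
      · simpa [F, D', hc] using hcolΩ 1 c
      · simp [F, D', hc]
  have hlam : ∀ e e', Lam (F e) (F e') := by
    intro e e'
    rcases hFc e with h | h
    · rcases hFc e' with h' | h'
      · exact hs.lam _ _ h h'
      · rw [h']; exact Or.inr (Or.inl (hFΩ e))
    · rw [h]; exact Or.inr (Or.inr (hFΩ e'))
  let K : Fin I.m × Bool → ℕ := fun e =>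
    (I.n - (F e).card) * (2 * I.m) + (2 * e.1 + cond e.2 1 0)
  have hcard : ∀ e, (F e).card ≤ I.n := fun e => by simpa using card_le_card (hFΩ e)
  have hidx : ∀ e : Fin I.m × Bool, 2 * (e.1 : ℕ) + cond e.2 1 0 < 2 * I.m := by
    rintro ⟨c, _ | _⟩ <;> have := c.2 <;> simp <;> omega
  have hK1 : ∀ e e', (F e').card < (F e).card → K e < K e' := by
    intro e e' hlt
    have h1 := hcard e
    have h2 := hidx e
    have h3 : (I.n - (F e).card + 1) * (2 * I.m) ≤ (I.n - (F e').card) * (2 * I.m) :=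
      Nat.mul_le_mul_right _ (by omega)
    simp only [K]
    rw [Nat.add_mul] at h3
    omega
  have hK2 : ∀ e e', K e ≤ K e' → (F e').card ≤ (F e).card := by
    intro e e' hle
    by_contra hlt
    have := hK1 e' e (by omega)
    omega
  have hKinj : ∀ e e', K e = K e' → e = e' := by
    rintro ⟨c, b⟩ ⟨c', b'⟩ he
    have h1 := hK2 _ _ he.le
    have h2 := hK2 _ _ he.ge
    have h3 : (F (c, b)).card = (F (c', b')).card := le_antisymm h2 h1
    simp only [K, h3] at he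
    have h4 : 2 * (c : ℕ) + cond b 1 0 = 2 * (c' : ℕ) + cond b' 1 0 := by omega
    cases b <;> cases b' <;> simp at h4 ⊢ <;> first | omega | exact Fin.ext (by omega)
  have hKgl : ∀ c, K (c, false) < K (c, true) := by
    intro c
    have h1 : (F (c, true)).card ≤ (F (c, false)).card := card_le_card subset_union_right
    rcases h1.lt_or_eq with h2 | h2
    · exact hK1 _ _ h2
    · simp only [K, h2]
      simp
  let anc : Fin I.m × Bool → Fin I.m × Bool → Prop := fun e' e =>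
    (F e).Nonempty ∧ F e ⊆ F e' ∧ K e' ≤ K e
  let Anc : Option (Fin I.m × Bool) → Fin I.m × Bool → Prop := fun v e' =>
    ∃ e, v = some e ∧ anc e' e
  have htop : ∀ T : Finset (Fin I.m × Bool), ∃ v : Option (Fin I.m × Bool),
      (v = none ∨ ∃ p ∈ T, v = some p) ∧
      ((∃ x, ∀ e ∈ T, x ∈ F e) → (∀ e1 ∈ T, ∀ e2, anc e2 e1 → e2 ∈ T) →
        ∀ e, Anc v e ↔ e ∈ T) := by
    intro T
    by_cases hT : T.Nonempty
    · obtain ⟨p, hp, hmax⟩ := exists_max_image T K hT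
      refine ⟨some p, Or.inr ⟨p, hp, rfl⟩, ?_⟩
      rintro ⟨x, hx⟩ hup e
      constructor
      · rintro ⟨e1, h1, h2⟩
        cases h1
        exact hup p hp e h2
      · intro he
        exact ⟨p, rfl, ⟨x, hx p hp⟩, (hlam p e).sub_of_card (hx p hp) (hx e he)
          (hK2 _ _ (hmax e he)), hmax e he⟩
    · refine ⟨none, Or.inl rfl, fun _ _ e => ⟨?_, fun he => absurd ⟨e, he⟩ hT⟩⟩
      rintro ⟨e1, h1, _⟩
      cases h1
  choose top htop1 htop2 using htop
  let T : Fin I.m × Bool → Finset (Fin I.m × Bool) := fun e =>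
    univ.filter fun e' => anc e' e ∧ e' ≠ e
  let par : Option (Fin I.m × Bool) → Option (Fin I.m × Bool) := fun v =>
    v.elim none fun e => top (T e)
  have hpar : ∀ e e', Anc (par (some e)) e' ↔ anc e' e ∧ e' ≠ e := by
    intro e e'
    have := htop2 (T e) ?_ ?_ e'
    · simpa [T, par] using this
    · by_cases hne : (F e).Nonempty
      · obtain ⟨x, hx⟩ := hne
        exact ⟨x, fun e1 h1 => (mem_filter.1 h1).2.1.2.1 hx⟩
      · exact ⟨0, fun e1 h1 => absurd (mem_filter.1 h1).2.1.1 hne⟩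
    · intro e1 h1 e2 h2
      obtain ⟨_, ⟨h3, h4, h5⟩, h6⟩ := mem_filter.1 h1
      refine mem_filter.2 ⟨mem_univ _, ⟨h3, h4.trans h2.2.1, h2.2.2.trans h5⟩, ?_⟩
      rintro rfl
      exact h6 (hKinj _ _ (le_antisymm h5 h2.2.2))
  have hsome : ∀ e e', Anc (some e) e' ↔ anc e' e := by
    intro e e'
    constructor
    · rintro ⟨e1, h1, h2⟩
      cases h1
      exact h2
    · exact fun h => ⟨e, rfl, h⟩
  let l : Option (Fin I.m × Bool) → Fin I.m → Fin 3 := fun v c =>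
    if Anc v (c, true) then 2 else if Anc v (c, false) then 1 else 0
  let label : Option (Fin I.m × Bool) → Set (Fin I.m × Fin 3) := fun v =>
    {p | ∃ b, v = some (p.1, b) ∧ (F (p.1, b)).Nonempty ∧ p.2 = cond b 2 1}
  refine ⟨Option (Fin I.m × Bool), inferInstance, none, par, label, l, rfl, ?_, ?_, ?_, ?_, ?_,
    ?_, ?_⟩
  · have : ∀ k e, K e < k → ∃ j : ℕ, par^[j] (some e) = none := by
      intro k
      induction k with
      | zero => intro e he; omega
      | succ k ih =>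
        intro e he
        rcases htop1 (T e) with h | ⟨p, hp, h⟩
        · exact ⟨1, h⟩
        · obtain ⟨_, ⟨_, _, h5⟩, h6⟩ := mem_filter.1 hp
          have : K p ≠ K e := fun h0 => h6 (hKinj _ _ h0)
          obtain ⟨j, hj⟩ := ih p (by omega)
          refine ⟨j + 1, ?_⟩
          rw [Function.iterate_succ_apply]
          have e1 : par (some e) = some p := h
          rw [e1, hj]
    rintro (_ | e)
    · exact ⟨0, rfl⟩
    · exact this _ e (Nat.lt_succ_self _)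
  · intro c
    have : ∀ e, ¬ Anc none e := by
      rintro e ⟨e1, h1, _⟩
      cases h1
    simp [l, this]
  · rintro y _ c q ⟨b, rfl, hne, hq⟩
    simp only at hne hq
    subst hq
    have h1 : anc (c, b) (c, b) := ⟨hne, Subset.rfl, le_rfl⟩
    cases b
    · have h2 : ¬ anc (c, true) (c, false) := fun h => absurd h.2.2 (not_le.2 (hKgl c))
      simp [l, hsome, h1, h2]
    · simp [l, hsome, h1]
  · rintro (_ | ⟨c', b'⟩) hy c hno
    · exact absurd rfl hy
    have key : ∀ b, Anc (some (c', b')) (c, b) ↔ Anc (par (some (c', b'))) (c, b) := by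
      intro b
      rw [hsome, hpar]
      refine ⟨fun h => ⟨h, fun h0 => ?_⟩, fun h => h.1⟩
      cases h0
      exact hno (cond b' 2 1) ⟨b', rfl, h.1, rfl⟩
    simp only [l, key]
  · rintro y y' _ _ ⟨c, q⟩ ⟨b, rfl, _, hq⟩ ⟨b', rfl, _, hq'⟩
    simp only at hq hq'
    have : b = b' := by
      rw [hq] at hq'
      revert hq'
      cases b <;> cases b' <;> decide
    rw [this]
  · rintro y _ c q ⟨b, rfl, hne, hq⟩
    simp only at hne hq
    subst hq
    cases b
    · have h2 : ¬ anc (c, true) (c, false) := fun h => absurd h.2.2 (not_le.2 (hKgl c))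
      left
      simp [l, hpar, h2]
    · have h2 : anc (c, false) (c, true) := ⟨hne, subset_union_right, (hKgl c).le⟩
      right
      simp [l, hpar, h2]
  · intro s
    refine ⟨top (univ.filter fun e => (s : ℕ) ∈ F e), fun c => ?_⟩
    have key := htop2 (univ.filter fun e => (s : ℕ) ∈ F e)
      ⟨s, fun e he => (mem_filter.1 he).2⟩
      (fun e1 h1 e2 h2 => mem_filter.2 ⟨mem_univ _, h2.2.1 (mem_filter.1 h1).2⟩)
    have e1 := I.mem_col 1 s c
    have e2 := I.mem_col 2 s c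
    have hA : (s : ℕ) ∈ I.col 1 c → (s : ℕ) ∉ D' c := by
      intro h
      have hc : (c : ℕ) ∈ I.S0 := mem_filter.2 ⟨mem_range.2 c.2, s, h⟩
      simpa [D', hc] using disjoint_left.1 (hs.hA c hc) h
    have hB : (s : ℕ) ∈ I.col 2 c → (s : ℕ) ∈ D' c := by
      intro h
      by_cases hc : (c : ℕ) ∈ I.S0
      · simpa [D', hc] using hs.hB c hc h
      · simp [D', hc]
    simp only [l, key, mem_filter, mem_univ, true_and, F, cond_true, cond_false, mem_union]
    revert e1 e2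
    cases I.M s c <;> simp only [Entry.states, Entry.num] <;> intro e1 e2
    · have h1 := e1.2 trivial
      simp [hA h1, h1]
    · simp [hB (e2.2 trivial)]
    · have h1 : (s : ℕ) ∉ I.col 1 c := fun h => by simpa using e1.1 h
      by_cases h2 : (s : ℕ) ∈ D' c <;> simp [h1, h2]

end Pool.Agent.Lib.MP_16be6a_lc
end
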